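import Pool.Agent.H74.CV.Fr

set_option autoImplicit false

/-!
# [H74 CV Asm] assembly from the statements (helper74)
-/

namespace Pool.Agent.H74.CV

open MeasureTheory Set Filter Topology Pool.Agent.H74.SX

theorem sqrt5 : 1 < Real.sqrt 5 := by
  rw [show (1 : ℝ) = Real.sqrt 1 from Real.sqrt_one.symm]
  exact Real.sqrt_lt_sqrt (by norm_num) (by norm_num)

theorem Kinv {L : ℝ} (hL : 0 < L) :
    1 / (L * (Real.sqrt 5 + 1) / (4 * Real.pi)) = (Real.sqrt 5 - 1) * Real.pi / L := by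
  have h5 := sqrt5
  have hpi := Real.pi_pos
  have h2 : Real.sqrt 5 * Real.sqrt 5 = 5 := Real.mul_self_sqrt (by norm_num)
  have h3 : Real.sqrt 5 + 1 ≠ 0 := by linarith
  field_simp
  nlinarith

theorem lower (htr : TrcStmt) (hpol : PolStmt) (hcf : CfxStmt) {p : ℝ → ℝ} (hp : Sp p) :
    (((Real.sqrt 5 - 1) * Real.pi / Lp p : ℝ) : EReal) ≤ mx p (Ex p) (ad p) 2 := by
  have h5 := sqrt5
  have hpi := Real.pi_pos
  have hL : 0 < Lp p := hp.pos
  have hK : 0 < Lp p * (Real.sqrt 5 + 1) / (4 * Real.pi) := by positivity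
  rw [← Kinv hL]
  refine hcf p hp _ hK fun u hu h0 => ?_
  obtain ⟨h1, h2⟩ := hpol p hp u hu
  have h3 := htr p hp u hu.1 h1
  rw [h0, zero_div] at h3
  simp only [sub_zero] at h3
  exact h3.trans (mul_le_mul_of_nonneg_left h2 hK.le)

theorem upper (hup : UppStmt) {p : ℝ → ℝ} (hp : Sp p)
    (h : Lp p * volume.real (Dm p) < (Real.sqrt 5 - 1) * Real.pi *
      ab p (fun z => (z.re - ab p (fun z => z.re) / Lp p) ^ 2)) :
    mx p (Dm p) (fun u => ContDiff ℝ 1 u) 2 < (((Real.sqrt 5 - 1) * Real.pi / Lp p : ℝ) : EReal) := by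
  have h5 := sqrt5
  have hpi := Real.pi_pos
  have hL : 0 < Lp p := hp.pos
  have hv : 0 ≤ volume.real (Dm p) := measureReal_nonneg
  obtain ⟨D, hD⟩ : ∃ D, D = ab p (fun z => (z.re - ab p (fun z => z.re) / Lp p) ^ 2) := ⟨_, rfl⟩
  rw [← hD] at h
  have hc : 0 < (Real.sqrt 5 - 1) * Real.pi := mul_pos (by linarith) hpi
  have hD0 : 0 < D := by
    have h1 : 0 < (Real.sqrt 5 - 1) * Real.pi * D := lt_of_le_of_lt (mul_nonneg hL.le hv) h
    exact (pos_iff_pos_of_mul_pos h1).1 hc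
  refine lt_of_le_of_lt (hup p hp D hD0 hD) (EReal.coe_lt_coe_iff.2 ?_)
  rw [div_lt_div_iff₀ hD0 hL]
  linarith

theorem upper3 (hup : UppStmt) (hwd : WdtStmt) {p : ℝ → ℝ} (hp : Sp p)
    (h : 6 * Lp p * volume.real (Dm p) < (Real.sqrt 5 - 1) * Real.pi * (p 0 + p Real.pi) ^ 3) :
    mx p (Dm p) (fun u => ContDiff ℝ 1 u) 2 < (((Real.sqrt 5 - 1) * Real.pi / Lp p : ℝ) : EReal) := by
  have h5 := sqrt5
  have hpi := Real.pi_pos
  have hc : 0 < (Real.sqrt 5 - 1) * Real.pi := mul_pos (by linarith) hpi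
  refine upper hup hp ?_
  have h1 := (hwd p hp (ab p (fun z => z.re) / Lp p)).2
  have h2 := mul_le_mul_of_nonneg_left h1 hc.le
  linarith

end Pool.Agent.H74.CV
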