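import Pool.Agent.H74.CV.Fr

set_option autoImplicit false

/-!
# [H74 CV Cfx] the lower bound for the second exterior eigenvalue of a convex domain (helper79, after helper53 and helper3)
-/

namespace Pool.Agent.H74.CV

open MeasureTheory Set Filter Topology Pool.Agent.H74.SX

namespace CfxAux

theorem cont_ee : Continuous ee := by
  unfold ee
  fun_prop

theorem c1_dp {p : ℝ → ℝ} (h : Sp p) : ContDiff ℝ 1 (deriv p) :=
  (contDiff_succ_iff_deriv.1 (by
    have h1 : ((1 : WithTop ℕ∞) + 1) = 2 := by norm_num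
    rw [h1]
    exact h.c2)).2.2

theorem cont_rr {p : ℝ → ℝ} (h : Sp p) : Continuous (rr p) :=
  h.c2.continuous.add ((c1_dp h).continuous_deriv le_rfl)

theorem cont_ga {p : ℝ → ℝ} (h : Sp p) : Continuous (ga p) := by
  have h1 : Continuous fun θ : ℝ => (p θ : ℂ) := Complex.continuous_ofReal.comp h.c2.continuous
  have h2 : Continuous fun θ : ℝ => ((deriv p θ : ℝ) : ℂ) := Complex.continuous_ofReal.comp (c1_dp h).continuous
  exact (h1.add (h2.mul continuous_const)).mul cont_ee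

theorem ad_comb {p : ℝ → ℝ} {u : Fin 2 → ℂ → ℝ} (hu : ∀ i, ad p (u i)) (c : Fin 2 → ℝ) :
    ad p (fun z => ∑ i, c i * u i z) := by
  have hc : ContDiff ℝ 1 (fun z => ∑ i, c i * u i z) := by
    refine ContDiff.sum fun i _ => ?_
    exact contDiff_const.mul (hu i).1
  refine ⟨hc, ?_, ?_⟩
  · obtain ⟨C0, h0⟩ := (hu 0).2.1
    obtain ⟨C1, h1⟩ := (hu 1).2.1
    refine ⟨|c 0| * C0 + |c 1| * C1, fun z => ?_⟩
    show |∑ i, c i * u i z| ≤ _
    rw [Fin.sum_univ_two]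
    refine (abs_add_le _ _).trans ?_
    rw [abs_mul, abs_mul]
    exact add_le_add (mul_le_mul_of_nonneg_left (h0 z) (abs_nonneg _)) (mul_le_mul_of_nonneg_left (h1 z) (abs_nonneg _))
  · have h1 : ∀ z, fderiv ℝ (fun z => ∑ i, c i * u i z) z = c 0 • fderiv ℝ (u 0) z + c 1 • fderiv ℝ (u 1) z := by
      intro z
      have d0 : DifferentiableAt ℝ (u 0) z := ((hu 0).1.differentiable one_ne_zero) z
      have d1 : DifferentiableAt ℝ (u 1) z := ((hu 1).1.differentiable one_ne_zero) z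
      have h2 : (fun z => ∑ i, c i * u i z) = fun z => c 0 * u 0 z + c 1 * u 1 z := by
        funext z
        rw [Fin.sum_univ_two]
      rw [h2]
      exact ((d0.hasFDerivAt.const_mul (c 0)).add (d1.hasFDerivAt.const_mul (c 1))).fderiv
    have hint : IntegrableOn (fun z => 2 * c 0 ^ 2 * ‖fderiv ℝ (u 0) z‖ ^ 2 + 2 * c 1 ^ 2 * ‖fderiv ℝ (u 1) z‖ ^ 2)
        (Ex p) := ((hu 0).2.2.const_mul (2 * c 0 ^ 2)).add ((hu 1).2.2.const_mul (2 * c 1 ^ 2))
    have hcont : Continuous fun z => ‖fderiv ℝ (fun z => ∑ i, c i * u i z) z‖ ^ 2 :=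
      ((hc.continuous_fderiv one_ne_zero).norm).pow 2
    refine Integrable.mono' hint hcont.aestronglyMeasurable (Filter.Eventually.of_forall fun z => ?_)
    rw [Real.norm_of_nonneg (sq_nonneg _), h1]
    have h3 : ‖c 0 • fderiv ℝ (u 0) z + c 1 • fderiv ℝ (u 1) z‖ ≤ |c 0| * ‖fderiv ℝ (u 0) z‖ + |c 1| * ‖fderiv ℝ (u 1) z‖ := by
      refine (norm_add_le _ _).trans ?_
      rw [norm_smul, norm_smul, Real.norm_eq_abs, Real.norm_eq_abs]
    have h4 : ‖c 0 • fderiv ℝ (u 0) z + c 1 • fderiv ℝ (u 1) z‖ ^ 2 ≤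
        (|c 0| * ‖fderiv ℝ (u 0) z‖ + |c 1| * ‖fderiv ℝ (u 1) z‖) ^ 2 := pow_le_pow_left₀ (norm_nonneg _) h3 2
    have h5 : (|c 0| * ‖fderiv ℝ (u 0) z‖ + |c 1| * ‖fderiv ℝ (u 1) z‖) ^ 2 ≤
        2 * (|c 0| * ‖fderiv ℝ (u 0) z‖) ^ 2 + 2 * (|c 1| * ‖fderiv ℝ (u 1) z‖) ^ 2 := by
      nlinarith [sq_nonneg (|c 0| * ‖fderiv ℝ (u 0) z‖ - |c 1| * ‖fderiv ℝ (u 1) z‖)]
    rw [mul_pow, mul_pow, sq_abs, sq_abs] at h5
    linarith

theorem ab_comb {p : ℝ → ℝ} (h : Sp p) {u : Fin 2 → ℂ → ℝ} (hu : ∀ i, ad p (u i)) (c : Fin 2 → ℝ) :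
    ab p (fun z => ∑ i, c i * u i z) = c 0 * ab p (u 0) + c 1 * ab p (u 1) := by
  have hc : ∀ i, Continuous fun θ : ℝ => u i (ga p θ) * rr p θ :=
    fun i => ((hu i).1.continuous.comp (cont_ga h)).mul (cont_rr h)
  unfold ab
  rw [← intervalIntegral.integral_const_mul, ← intervalIntegral.integral_const_mul, ← intervalIntegral.integral_add
    (((hc 0).const_mul (c 0)).intervalIntegrable _ _) (((hc 1).const_mul (c 1)).intervalIntegrable _ _)]
  refine intervalIntegral.integral_congr fun θ _ => ?_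
  show (∑ i, c i * u i _) * _ = _
  rw [Fin.sum_univ_two]
  ring

end CfxAux

open CfxAux in
theorem cfx : CfxStmt := by
  intro p hp K hK hlow
  refine le_sInf ?_
  rintro x ⟨R, rfl, u, hu, hind, hR⟩
  obtain ⟨c, hc, hb⟩ : ∃ c : Fin 2 → ℝ, c ≠ 0 ∧ ab p (fun z => ∑ i, c i * u i z) = 0 := by
    by_cases h0 : ab p (u 0) = 0
    · refine ⟨![1, 0], fun h => one_ne_zero (congrFun h 0), ?_⟩
      rw [ab_comb hp hu, h0]
      simp
    · refine ⟨![ab p (u 1), - ab p (u 0)], fun h => h0 ?_, ?_⟩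
      · have h1 := congrFun h 1
        simpa using h1
      · rw [ab_comb hp hu]
        simp
        ring
  have hadm := ad_comb hu c
  have hpos := hind c hc
  have h1 := hlow _ hadm hb
  have h2 := hR c
  have hd : 0 < dir (Ex p) (fun z => ∑ i, c i * u i z) := by
    by_contra hcon
    push Not at hcon
    have h3 : K * dir (Ex p) (fun z => ∑ i, c i * u i z) ≤ 0 := mul_nonpos_of_nonneg_of_nonpos hK.le hcon
    linarith
  have hR0 : 0 < R := by
    by_contra hcon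
    push Not at hcon
    have h3 : R * ab p (fun z => (∑ i, c i * u i z) ^ 2) ≤ 0 := mul_nonpos_of_nonpos_of_nonneg hcon hpos.le
    linarith
  have h4 : dir (Ex p) (fun z => ∑ i, c i * u i z) ≤ R * (K * dir (Ex p) (fun z => ∑ i, c i * u i z)) :=
    h2.trans (mul_le_mul_of_nonneg_left h1 hR0.le)
  have h5 : 1 ≤ R * K := by
    by_contra hcon
    push Not at hcon
    nlinarith
  rw [EReal.coe_le_coe_iff, div_le_iff₀ hK]
  exact h5

end Pool.Agent.H74.CV
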