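import Pool.Agent.H74.CV.Fr

set_option autoImplicit false

/-!
# [H74 CV Inj] support inequality, injectivity of the parallel curves (proved by helper11)
-/

namespace Pool.Agent.H74.CV

open MeasureTheory Set Filter Topology

namespace InjP

theorem re_ee (θ : ℝ) : (ee θ).re = Real.cos θ := by
  unfold ee
  exact Complex.exp_ofReal_mul_I_re θ

theorem im_ee (θ : ℝ) : (ee θ).im = Real.sin θ := by
  unfold ee
  exact Complex.exp_ofReal_mul_I_im θ

theorem re_mul (φ : ℝ) (z : ℂ) : ((starRingEnd ℂ) (ee φ) * z).re = Real.cos φ * z.re + Real.sin φ * z.im := by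
  rw [Complex.mul_re, Complex.conj_re, Complex.conj_im, re_ee, im_ee]
  ring

theorem re_ga (p : ℝ → ℝ) (φ θ : ℝ) : ((starRingEnd ℂ) (ee φ) * ga p θ).re =
    p θ * Real.cos (φ - θ) + deriv p θ * Real.sin (φ - θ) := by
  rw [re_mul, Real.cos_sub, Real.sin_sub]
  unfold ga
  simp only [Complex.mul_re, Complex.mul_im, Complex.add_re, Complex.add_im, Complex.ofReal_re, Complex.ofReal_im,
    Complex.I_re, Complex.I_im, re_ee, im_ee]
  ring

theorem re_Ph (p : ℝ → ℝ) (t φ θ : ℝ) : ((starRingEnd ℂ) (ee φ) * Ph p t θ).re =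
    ((starRingEnd ℂ) (ee φ) * ga p θ).re + t * Real.cos (φ - θ) := by
  unfold Ph
  rw [mul_add, Complex.add_re, re_mul φ ((t : ℂ) * ee θ)]
  simp only [Complex.mul_re, Complex.mul_im, Complex.ofReal_re, Complex.ofReal_im, re_ee, im_ee]
  rw [Real.cos_sub]
  ring

theorem hasW (p : ℝ → ℝ) (hp : Sp p) (θ φ s : ℝ) : HasDerivAt (fun s =>
    (deriv p s - (-(p θ) * Real.sin (s - θ) + deriv p θ * Real.cos (s - θ))) * Real.sin (φ - s) +
    (p s - (p θ * Real.cos (s - θ) + deriv p θ * Real.sin (s - θ))) * Real.cos (φ - s))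
    ((p s + deriv (deriv p) s) * Real.sin (φ - s)) s := by
  have hc1 : ContDiff ℝ 1 (deriv p) := by
    have h := hp.c2
    rw [show (2 : WithTop ℕ∞) = 1 + 1 by norm_num, contDiff_succ_iff_deriv] at h
    exact h.2.2
  have h1 : HasDerivAt p (deriv p s) s := (hp.c2.differentiable (by norm_num) s).hasDerivAt
  have h2 : HasDerivAt (deriv p) (deriv (deriv p) s) s := (hc1.differentiable (by norm_num) s).hasDerivAt
  have d1 : HasDerivAt (fun s : ℝ => s - θ) 1 s := (hasDerivAt_id s).sub_const θ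
  have d2 : HasDerivAt (fun s : ℝ => φ - s) (-1) s := (hasDerivAt_id s).const_sub φ
  have c1 : HasDerivAt (fun s => Real.sin (s - θ)) (Real.cos (s - θ) * 1) s := d1.sin
  have c2 : HasDerivAt (fun s => Real.cos (s - θ)) (-Real.sin (s - θ) * 1) s := d1.cos
  have c3 : HasDerivAt (fun s => Real.sin (φ - s)) (Real.cos (φ - s) * (-1)) s := d2.sin
  have c4 : HasDerivAt (fun s => Real.cos (φ - s)) (-Real.sin (φ - s) * (-1)) s := d2.cos
  have h := ((h2.sub ((c1.const_mul (-(p θ))).add (c2.const_mul (deriv p θ)))).mul c3).add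
    ((h1.sub ((c2.const_mul (p θ)).add (c1.const_mul (deriv p θ)))).mul c4)
  refine h.congr_deriv ?_
  simp only [Pi.sub_apply, Pi.add_apply]
  ring

theorem supp1 (p : ℝ → ℝ) (hp : Sp p) (θ φ : ℝ) (h1 : θ - Real.pi ≤ φ) (h2 : φ ≤ θ + Real.pi) :
    p θ * Real.cos (φ - θ) + deriv p θ * Real.sin (φ - θ) ≤ p φ := by
  obtain ⟨W, hW⟩ : ∃ W : ℝ → ℝ, W = fun s =>
    (deriv p s - (-(p θ) * Real.sin (s - θ) + deriv p θ * Real.cos (s - θ))) * Real.sin (φ - s) +
    (p s - (p θ * Real.cos (s - θ) + deriv p θ * Real.sin (s - θ))) * Real.cos (φ - s) := ⟨_, rfl⟩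
  have hd : ∀ s, HasDerivAt W ((p s + deriv (deriv p) s) * Real.sin (φ - s)) s := fun s => by
    rw [hW]
    exact hasW p hp θ φ s
  have hdiff : Differentiable ℝ W := fun s => (hd s).differentiableAt
  have w0 : W θ = 0 := by
    rw [hW]
    simp
  have w1 : W φ = p φ - (p θ * Real.cos (φ - θ) + deriv p θ * Real.sin (φ - θ)) := by
    rw [hW]
    simp
  have key : 0 ≤ W φ := by
    rcases le_total θ φ with h | h
    · have hm : MonotoneOn W (Icc θ φ) := by
        refine monotoneOn_of_deriv_nonneg (convex_Icc θ φ) hdiff.continuous.continuousOn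
          hdiff.differentiableOn fun s hs => ?_
        rw [interior_Icc] at hs
        rw [(hd s).deriv]
        exact mul_nonneg (hp.nn s) (Real.sin_nonneg_of_nonneg_of_le_pi (by linarith [hs.2]) (by linarith [hs.1]))
      have := hm (left_mem_Icc.2 h) (right_mem_Icc.2 h) h
      rwa [w0] at this
    · have hm : AntitoneOn W (Icc φ θ) := by
        refine antitoneOn_of_deriv_nonpos (convex_Icc φ θ) hdiff.continuous.continuousOn
          hdiff.differentiableOn fun s hs => ?_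
        rw [interior_Icc] at hs
        rw [(hd s).deriv]
        exact mul_nonpos_of_nonneg_of_nonpos (hp.nn s)
          (Real.sin_nonpos_of_nonpos_of_neg_pi_le (by linarith [hs.1]) (by linarith [hs.2]))
      have := hm (left_mem_Icc.2 h) (right_mem_Icc.2 h) h
      rwa [w0] at this
  rw [w1] at key
  linarith

theorem supp (p : ℝ → ℝ) (hp : Sp p) (θ φ : ℝ) :
    p θ * Real.cos (φ - θ) + deriv p θ * Real.sin (φ - θ) ≤ p φ := by
  obtain ⟨k, hk, -⟩ := existsUnique_add_zsmul_mem_Ico Real.two_pi_pos φ (θ - Real.pi)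
  have hk' : φ + k • (2 * Real.pi) ∈ Ico (θ - Real.pi) (θ - Real.pi + 2 * Real.pi) := hk
  have h := supp1 p hp θ (φ + k • (2 * Real.pi)) hk'.1 (by linarith [hk'.2])
  have e1 : p (φ + k • (2 * Real.pi)) = p φ := hp.per.zsmul k φ
  have e2 : Real.cos (φ + k • (2 * Real.pi) - θ) = Real.cos (φ - θ) := by
    rw [show φ + k • (2 * Real.pi) - θ = (φ - θ) + k * (2 * Real.pi) by rw [zsmul_eq_mul]; ring]
    exact Real.cos_add_int_mul_two_pi _ _
  have e3 : Real.sin (φ + k • (2 * Real.pi) - θ) = Real.sin (φ - θ) := by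
    rw [show φ + k • (2 * Real.pi) - θ = (φ - θ) + k * (2 * Real.pi) by rw [zsmul_eq_mul]; ring]
    exact Real.sin_add_int_mul_two_pi _ _
  rwa [e1, e2, e3] at h

theorem val (p : ℝ → ℝ) (t θ : ℝ) : ((starRingEnd ℂ) (ee θ) * Ph p t θ).re = p θ + t := by
  rw [re_Ph, re_ga, sub_self, Real.cos_zero, Real.sin_zero]
  ring

theorem ineq (p : ℝ → ℝ) (hp : Sp p) (t θ φ : ℝ) :
    ((starRingEnd ℂ) (ee φ) * Ph p t θ).re ≤ p φ + t * Real.cos (φ - θ) := by
  rw [re_Ph, re_ga]
  linarith [supp p hp θ φ]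

end InjP

theorem inj : InjStmt := by
  intro p hp
  refine ⟨fun t θ t' θ' ht ht' hθ hθ' h => ?_, fun t θ ht => ⟨θ, ?_⟩⟩
  · have h1 := InjP.ineq p hp t θ θ'
    rw [h, InjP.val] at h1
    have h2 := InjP.ineq p hp t' θ' θ
    rw [← h, InjP.val] at h2
    have h3 : t' ≤ t * Real.cos (θ' - θ) := by linarith
    have h4 : t ≤ t' * Real.cos (θ - θ') := by linarith
    have c1 := Real.cos_le_one (θ' - θ)
    have c2 := Real.cos_le_one (θ - θ')
    have h5 : t * Real.cos (θ' - θ) ≤ t * 1 := mul_le_mul_of_nonneg_left c1 ht.le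
    have h6 : t' * Real.cos (θ - θ') ≤ t' * 1 := mul_le_mul_of_nonneg_left c2 ht'.le
    have e1 : t = t' := by linarith
    refine ⟨e1, ?_⟩
    have e2 : Real.cos (θ' - θ) = 1 := by
      have h7 : t * Real.cos (θ' - θ) = t * 1 := by linarith
      exact mul_left_cancel₀ ht.ne' h7
    have e3 := (Real.cos_eq_one_iff_of_lt_of_lt (by linarith [hθ.2, hθ'.1]) (by linarith [hθ.1, hθ'.2])).1 e2
    linarith
  · rw [InjP.val]
    linarith

end Pool.Agent.H74.CV
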