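import Pool.Agent.H74.CV.Fr

set_option autoImplicit false

/-!
# [H74 CV Pol] change of variables in the exterior of a convex domain (MP_bddfa3_an) (helper27)
-/

namespace Pool.Agent.H74.CV.Pol

open MeasureTheory Set Filter Topology Pool.Agent.H74.SX Pool.Agent.H74.CV

theorem ee_der (θ : ℝ) : HasDerivAt ee (Complex.I * ee θ) θ := by
  unfold ee
  have h1 : HasDerivAt (fun θ : ℝ => (θ : ℂ) * Complex.I) (((1 : ℝ) : ℂ) * Complex.I) θ :=
    (hasDerivAt_id θ).ofReal_comp.mul_const Complex.I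
  have h2 := h1.cexp
  convert h2 using 1
  push_cast
  ring

theorem dp_c1 {p : ℝ → ℝ} (hp : Sp p) : ContDiff ℝ 1 (deriv p) := by
  have h : ContDiff ℝ (1 + 1) p := by
    have := hp.c2
    norm_num
    exact this
  exact (contDiff_succ_iff_deriv.1 h).2.2

theorem ga_der {p : ℝ → ℝ} (hp : Sp p) (θ : ℝ) : HasDerivAt (ga p) (Complex.I * rr p θ * ee θ) θ := by
  have h1 : HasDerivAt p (deriv p θ) θ := (hp.c2.differentiable (by norm_num) θ).hasDerivAt
  have h2 : HasDerivAt (deriv p) (deriv (deriv p) θ) θ := ((dp_c1 hp).differentiable (by norm_num) θ).hasDerivAt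
  have h3 := (h1.ofReal_comp.add (h2.ofReal_comp.mul_const Complex.I)).mul (ee_der θ)
  have h4 : Complex.I * rr p θ * ee θ = (((deriv p θ : ℝ) : ℂ) + ((deriv (deriv p) θ : ℝ) : ℂ) * Complex.I) * ee θ +
      (((p θ : ℝ) : ℂ) + ((deriv p θ : ℝ) : ℂ) * Complex.I) * (Complex.I * ee θ) := by
    unfold rr
    push_cast
    linear_combination -(((deriv p θ : ℝ) : ℂ) * ee θ) * Complex.I_sq
  rw [h4]
  exact h3

/-- the derivative of the map `(t, θ) ↦ Φ (t, θ)` -/
noncomputable def LL (a b : ℂ) : ℂ →L[ℝ] ℂ := Complex.reCLM.smulRight a + Complex.imCLM.smulRight b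

theorem det_LL (a b : ℂ) : (LL a b).det = a.re * b.im - a.im * b.re := by
  have h : (LL a b).det = LinearMap.det (LL a b : ℂ →ₗ[ℝ] ℂ) := rfl
  rw [h, ← LinearMap.det_toMatrix Complex.basisOneI, Matrix.det_fin_two]
  simp only [LinearMap.toMatrix_apply, Complex.coe_basisOneI, Complex.coe_basisOneI_repr]
  simp [LL]
  ring

theorem Ph_der {p : ℝ → ℝ} (hp : Sp p) (z : ℂ) :
    HasFDerivAt (fun z : ℂ => Ph p z.re z.im)
      (LL (ee z.im) (Complex.I * (rr p z.im + z.re) * ee z.im)) z := by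
  have h1 : HasFDerivAt (fun z : ℂ => ga p z.im) _ z :=
    (ga_der hp z.im).hasFDerivAt.comp z Complex.imCLM.hasFDerivAt
  have h2 : HasFDerivAt (fun z : ℂ => ee z.im) _ z :=
    (ee_der z.im).hasFDerivAt.comp z Complex.imCLM.hasFDerivAt
  have h3 : HasFDerivAt (fun z : ℂ => ((z.re : ℝ) : ℂ)) (Complex.ofRealCLM.comp Complex.reCLM) z :=
    (Complex.ofRealCLM.comp Complex.reCLM).hasFDerivAt
  have h4 := h1.add (h3.mul h2)
  refine h4.congr_fderiv (ContinuousLinearMap.ext fun v => ?_)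
  simp [LL]
  ring

theorem ee_norm (θ : ℝ) : ‖ee θ‖ = 1 := by
  unfold ee
  rw [Complex.norm_exp_ofReal_mul_I]

theorem det_eq (p : ℝ → ℝ) (t θ : ℝ) : (LL (ee θ) (Complex.I * (rr p θ + t) * ee θ)).det = rr p θ + t := by
  have h := ee_norm θ
  have h1 : ‖ee θ‖ ^ 2 = 1 := by rw [h]; norm_num
  rw [← Complex.normSq_eq_norm_sq, Complex.normSq_apply] at h1
  rw [det_LL]
  have e : Complex.I * ((rr p θ : ℂ) + (t : ℂ)) * ee θ = ((rr p θ + t : ℝ) : ℂ) * (Complex.I * ee θ) := by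
    push_cast
    ring
  rw [e, Complex.re_ofReal_mul, Complex.im_ofReal_mul, Complex.I_mul_re, Complex.I_mul_im]
  linear_combination (rr p θ + t) * h1

end Pool.Agent.H74.CV.Pol

namespace Pool.Agent.H74.CV

open MeasureTheory Set Filter Topology Pool.Agent.H74.SX Pol

theorem pol (h : InjStmt) : PolStmt := by
  intro p hp u hu
  obtain ⟨hinj, hex⟩ := h p hp
  obtain ⟨-, -, hui⟩ := hu
  have hpi : (0 : ℝ) ≤ 2 * Real.pi := by linarith [Real.pi_pos]
  have hWm : MeasurableSet (Ioi (0 : ℝ) ×ˢ Ioo (0 : ℝ) (2 * Real.pi)) := measurableSet_Ioi.prod measurableSet_Ioo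
  obtain ⟨s, hsd⟩ : ∃ s : Set ℂ, s = Complex.measurableEquivRealProd ⁻¹' (Ioi (0 : ℝ) ×ˢ Ioo (0 : ℝ) (2 * Real.pi)) :=
    ⟨_, rfl⟩
  have hmem : ∀ z ∈ s, 0 < z.re ∧ 0 < z.im ∧ z.im < 2 * Real.pi := by
    intro z hz
    rw [hsd] at hz
    exact ⟨hz.1, hz.2.1, hz.2.2⟩
  have hs : MeasurableSet s := by
    rw [hsd]
    exact Complex.measurableEquivRealProd.measurable hWm
  have hF : ∀ z ∈ s, HasFDerivWithinAt (fun z : ℂ => Ph p z.re z.im)
      (LL (ee z.im) (Complex.I * (rr p z.im + z.re) * ee z.im)) s z := fun z _ => (Ph_der hp z).hasFDerivWithinAt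
  have hi : InjOn (fun z : ℂ => Ph p z.re z.im) s := by
    intro z hz w hw hzw
    obtain ⟨z1, z2, z3⟩ := hmem z hz
    obtain ⟨w1, w2, w3⟩ := hmem w hw
    obtain ⟨h1, h2⟩ := hinj z.re z.im w.re w.im z1 w1 ⟨z2.le, z3⟩ ⟨w2.le, w3⟩ hzw
    exact Complex.ext h1 h2
  have him : (fun z : ℂ => Ph p z.re z.im) '' s ⊆ Ex p := by
    rintro _ ⟨z, hz, rfl⟩
    exact hex _ _ (hmem z hz).1
  have hG : IntegrableOn (fun z => ‖fderiv ℝ u z‖ ^ 2) ((fun z : ℂ => Ph p z.re z.im) '' s) volume := hui.mono_set him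
  have h1 := (integrableOn_image_iff_integrableOn_abs_det_fderiv_smul volume hs hF hi _).1 hG
  have h2 := integral_image_eq_integral_abs_det_fderiv_smul volume hs hF hi (fun z => ‖fderiv ℝ u z‖ ^ 2)
  obtain ⟨H, hH⟩ : ∃ H : ℝ × ℝ → ℝ, H = fun x => (rr p x.2 + x.1) * ‖fderiv ℝ u (Ph p x.1 x.2)‖ ^ 2 := ⟨_, rfl⟩
  have hcong : EqOn (fun z : ℂ => |(LL (ee z.im) (Complex.I * (rr p z.im + z.re) * ee z.im)).det| •
      ‖fderiv ℝ u (Ph p z.re z.im)‖ ^ 2) (fun z : ℂ => H (Complex.measurableEquivRealProd z)) s := by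
    intro z hz
    have h3 : 0 ≤ rr p z.im + z.re := by
      have := hp.nn z.im
      have := (hmem z hz).1
      unfold rr
      linarith
    simp only [hH]
    rw [det_eq, abs_of_nonneg h3, smul_eq_mul]
    rfl
  have e1 : IntegrableOn (fun z : ℂ => H (Complex.measurableEquivRealProd z)) s volume := h1.congr_fun hcong hs
  have e2 : IntegrableOn H (Ioi (0 : ℝ) ×ˢ Ioo (0 : ℝ) (2 * Real.pi)) volume := by
    rw [hsd] at e1
    exact (Complex.volume_preserving_equiv_real_prod.integrableOn_comp_preimage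
      Complex.measurableEquivRealProd.measurableEmbedding).1 e1
  have e3 : ∫ z in s, H (Complex.measurableEquivRealProd z) =
      ∫ x in Ioi (0 : ℝ) ×ˢ Ioo (0 : ℝ) (2 * Real.pi), H x := by
    rw [hsd]
    exact Complex.volume_preserving_equiv_real_prod.setIntegral_preimage_emb
      Complex.measurableEquivRealProd.measurableEmbedding H _
  have e4 : Integrable H ((volume.restrict (Ioi (0 : ℝ))).prod (volume.restrict (Ioo (0 : ℝ) (2 * Real.pi)))) := by
    rw [Measure.prod_restrict, ← Measure.volume_eq_prod]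
    exact e2
  have hEE : (fun t => EE p u t) = fun t => ∫ θ in Ioo (0 : ℝ) (2 * Real.pi), H (t, θ) := by
    funext t
    unfold EE
    rw [intervalIntegral.integral_of_le hpi, integral_Ioc_eq_integral_Ioo, hH]
  have f2 : ∫ x in Ioi (0 : ℝ) ×ˢ Ioo (0 : ℝ) (2 * Real.pi), H x = ∫ t in Ioi (0 : ℝ), ∫ θ in Ioo (0 : ℝ) (2 * Real.pi), H (t, θ) := by
    rw [Measure.volume_eq_prod, ← Measure.prod_restrict]
    exact integral_prod H e4
  refine ⟨?_, ?_⟩
  · rw [hEE]
    exact e4.integral_prod_left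
  · rw [hEE, ← f2, ← e3, ← setIntegral_congr_fun hs hcong]
    have h5 : ∫ z in s, |(LL (ee z.im) (Complex.I * (rr p z.im + z.re) * ee z.im)).det| •
        ‖fderiv ℝ u (Ph p z.re z.im)‖ ^ 2 = ∫ z in (fun z : ℂ => Ph p z.re z.im) '' s, ‖fderiv ℝ u z‖ ^ 2 := h2.symm
    rw [h5]
    unfold dir
    exact setIntegral_mono_set hui (Eventually.of_forall fun z => by positivity) (LE.le.eventuallyLE him)

end Pool.Agent.H74.CV
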