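import Pool.Agent.H74.CV.Fr
import Pool.Agent.H74.SX.St

set_option autoImplicit false

/-!
# [H74 CV Trc] trace inequality for the parallel curves (helper31)
-/

namespace Pool.Agent.H74.CV.TrcH

open MeasureTheory Set Filter Topology Pool.Agent.H74.SX

/-- differentiation under the integral -/
theorem hd_int {f f' : ℝ → ℝ → ℝ} (hf : ∀ t, Continuous (f t)) (hf' : Continuous (fun q : ℝ × ℝ => f' q.1 q.2))
    (h : ∀ t θ, HasDerivAt (fun t => f t θ) (f' t θ) t) (t : ℝ) :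
    HasDerivAt (fun t => ∫ θ in (0 : ℝ)..(2 * Real.pi), f t θ) (∫ θ in (0 : ℝ)..(2 * Real.pi), f' t θ) t := by
  have hK : IsCompact (Icc (t - 1) (t + 1) ×ˢ uIcc (0 : ℝ) (2 * Real.pi)) := isCompact_Icc.prod isCompact_uIcc
  obtain ⟨M, hM⟩ := hK.exists_bound_of_continuousOn hf'.continuousOn
  have hs : Ioo (t - 1) (t + 1) ∈ 𝓝 t := Ioo_mem_nhds (by linarith) (by linarith)
  refine (intervalIntegral.hasDerivAt_integral_of_dominated_loc_of_deriv_le (μ := volume) (bound := fun _ => M)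
    (F := fun t θ => f t θ) (F' := fun t θ => f' t θ) hs ?_ ?_ ?_ ?_ ?_ ?_).2
  · exact Eventually.of_forall fun s => (hf s).aestronglyMeasurable
  · exact (hf t).intervalIntegrable _ _
  · have : Continuous (f' t) := hf'.comp (by fun_prop : Continuous fun θ : ℝ => (t, θ))
    exact this.aestronglyMeasurable
  · refine Eventually.of_forall fun θ hθ s hs => ?_
    exact hM (s, θ) ⟨⟨hs.1.le, hs.2.le⟩, uIoc_subset_uIcc hθ⟩
  · exact intervalIntegrable_const
  · exact Eventually.of_forall fun θ _ s _ => h s θ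

theorem ee_deriv (θ : ℝ) : HasDerivAt ee (Complex.I * ee θ) θ := by
  unfold ee
  have h1 : HasDerivAt (fun θ : ℝ => (θ : ℂ) * Complex.I) Complex.I θ := by
    simpa using (Complex.ofRealCLM.hasDerivAt (x := θ)).mul_const Complex.I
  have h2 := h1.cexp
  rw [mul_comm] at h2
  exact h2

theorem ee_cont : Continuous ee := by
  unfold ee
  fun_prop

theorem ee_norm (θ : ℝ) : ‖ee θ‖ = 1 := by
  unfold ee
  exact Complex.norm_exp_ofReal_mul_I θ

theorem dp_c1 {p : ℝ → ℝ} (hp : Sp p) : ContDiff ℝ 1 (deriv p) := by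
  have h : ContDiff ℝ (1 + 1) p := hp.c2
  exact ((contDiff_succ_iff_deriv (n := 1)).1 h).2.2

theorem rr_cont {p : ℝ → ℝ} (hp : Sp p) : Continuous (rr p) := by
  unfold rr
  exact hp.c2.continuous.add ((dp_c1 hp).continuous_deriv le_rfl)

theorem ga_deriv {p : ℝ → ℝ} (hp : Sp p) (θ : ℝ) : HasDerivAt (ga p) (rr p θ * (Complex.I * ee θ)) θ := by
  have h1 : HasDerivAt p (deriv p θ) θ := (hp.c2.differentiable (by norm_num)).differentiableAt.hasDerivAt
  have h2 : HasDerivAt (deriv p) (deriv (deriv p) θ) θ := ((dp_c1 hp).differentiable (by norm_num)).differentiableAt.hasDerivAt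
  have h3 := ((h1.ofReal_comp).add ((h2.ofReal_comp).mul_const Complex.I)).mul (ee_deriv θ)
  refine h3.congr_deriv ?_
  simp only [rr, Pi.add_apply]
  push_cast
  linear_combination ((deriv p θ : ℝ) : ℂ) * ee θ * Complex.I_sq

theorem Ph_dt (p : ℝ → ℝ) (t θ : ℝ) : HasDerivAt (fun t => Ph p t θ) (ee θ) t := by
  unfold Ph
  simpa using ((Complex.ofRealCLM.hasDerivAt (x := t)).mul_const (ee θ)).const_add (ga p θ)

theorem Ph_dθ {p : ℝ → ℝ} (hp : Sp p) (t θ : ℝ) : HasDerivAt (fun θ => Ph p t θ) ((rr p θ + t : ℝ) * (Complex.I * ee θ)) θ := by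
  unfold Ph
  refine ((ga_deriv hp θ).add ((ee_deriv θ).const_mul (t : ℂ))).congr_deriv ?_
  push_cast
  ring

theorem ga_cont {p : ℝ → ℝ} (hp : Sp p) : Continuous (ga p) :=
  continuous_iff_continuousAt.2 fun θ => (ga_deriv hp θ).continuousAt

theorem Ph_cont {p : ℝ → ℝ} (hp : Sp p) : Continuous (fun q : ℝ × ℝ => Ph p q.1 q.2) := by
  unfold Ph
  have h1 := ga_cont hp
  have h2 := ee_cont
  fun_prop

theorem sq_le' (L : ℂ →L[ℝ] ℝ) (θ : ℝ) : (L (ee θ)) ^ 2 + (L (Complex.I * ee θ)) ^ 2 ≤ ‖L‖ ^ 2 := by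
  obtain ⟨a, ha⟩ : ∃ a, a = L (ee θ) := ⟨_, rfl⟩
  obtain ⟨b, hb⟩ : ∃ b, b = L (Complex.I * ee θ) := ⟨_, rfl⟩
  rw [← ha, ← hb]
  obtain ⟨s, hs⟩ : ∃ s, s = a ^ 2 + b ^ 2 := ⟨_, rfl⟩
  have h1 : L (a • ee θ + b • (Complex.I * ee θ)) = s := by
    rw [map_add, map_smul, map_smul, ← ha, ← hb, hs, smul_eq_mul, smul_eq_mul]
    ring
  have h2 : ‖a • ee θ + b • (Complex.I * ee θ)‖ ^ 2 = s := by
    have e : a • ee θ + b • (Complex.I * ee θ) = (a + b * Complex.I) * ee θ := by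
      simp only [Complex.real_smul]
      ring
    rw [e, norm_mul, ee_norm, mul_one, ← Complex.normSq_eq_norm_sq, Complex.normSq_add_mul_I, hs]
  have h3 : |s| ≤ ‖L‖ * ‖a • ee θ + b • (Complex.I * ee θ)‖ := by
    rw [← h1]
    exact L.le_opNorm _
  have hs0 : 0 ≤ s := by rw [hs]; positivity
  rw [← hs]
  have h4 : s ^ 2 ≤ ‖L‖ ^ 2 * s := by
    have h5 := pow_le_pow_left₀ (abs_nonneg s) h3 2
    rw [sq_abs, mul_pow, h2] at h5
    exact h5
  by_cases h0 : s = 0
  · rw [h0]; positivity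
  · have hsp : 0 < s := lt_of_le_of_ne hs0 (Ne.symm h0)
    nlinarith

/-- the function on the parallel curves and its derivatives -/
noncomputable def UU (p : ℝ → ℝ) (u : ℂ → ℝ) (t θ : ℝ) : ℝ := u (Ph p t θ)
noncomputable def Ut (p : ℝ → ℝ) (u : ℂ → ℝ) (t θ : ℝ) : ℝ := fderiv ℝ u (Ph p t θ) (ee θ)
noncomputable def Us (p : ℝ → ℝ) (u : ℂ → ℝ) (t θ : ℝ) : ℝ := fderiv ℝ u (Ph p t θ) (Complex.I * ee θ)

theorem fd_cont {u : ℂ → ℝ} (hu : ContDiff ℝ 1 u) : Continuous (fderiv ℝ u) := hu.continuous_fderiv one_ne_zero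

theorem UU_cont {p : ℝ → ℝ} (hp : Sp p) {u : ℂ → ℝ} (hu : ContDiff ℝ 1 u) : Continuous (fun q : ℝ × ℝ => UU p u q.1 q.2) :=
  hu.continuous.comp (Ph_cont hp)

theorem Ut_cont {p : ℝ → ℝ} (hp : Sp p) {u : ℂ → ℝ} (hu : ContDiff ℝ 1 u) : Continuous (fun q : ℝ × ℝ => Ut p u q.1 q.2) :=
  ((fd_cont hu).comp (Ph_cont hp)).clm_apply (ee_cont.comp continuous_snd)

theorem Us_cont {p : ℝ → ℝ} (hp : Sp p) {u : ℂ → ℝ} (hu : ContDiff ℝ 1 u) : Continuous (fun q : ℝ × ℝ => Us p u q.1 q.2) :=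
  ((fd_cont hu).comp (Ph_cont hp)).clm_apply (continuous_const.mul (ee_cont.comp continuous_snd))

theorem UU_dt (p : ℝ → ℝ) {u : ℂ → ℝ} (hu : ContDiff ℝ 1 u) (t θ : ℝ) : HasDerivAt (fun t => UU p u t θ) (Ut p u t θ) t := by
  have h1 : HasFDerivAt u (fderiv ℝ u (Ph p t θ)) (Ph p t θ) := (hu.differentiable one_ne_zero).differentiableAt.hasFDerivAt
  exact h1.comp_hasDerivAt t (Ph_dt p t θ)

theorem UU_dθ {p : ℝ → ℝ} (hp : Sp p) {u : ℂ → ℝ} (hu : ContDiff ℝ 1 u) (t θ : ℝ) :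
    HasDerivAt (fun θ => UU p u t θ) ((rr p θ + t) * Us p u t θ) θ := by
  have h1 : HasFDerivAt u (fderiv ℝ u (Ph p t θ)) (Ph p t θ) := (hu.differentiable one_ne_zero).differentiableAt.hasFDerivAt
  have h2 := h1.comp_hasDerivAt θ (Ph_dθ hp t θ)
  refine h2.congr_deriv ?_
  rw [← Complex.real_smul, map_smul, smul_eq_mul]
  rfl

theorem ee_per : Function.Periodic ee (2 * Real.pi) := by
  intro θ
  unfold ee
  have h : (((θ + 2 * Real.pi : ℝ) : ℂ)) * Complex.I = θ * Complex.I + 2 * Real.pi * Complex.I := by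
    push_cast
    ring
  rw [h, Complex.exp_add, Complex.exp_two_pi_mul_I, mul_one]

theorem dper {f : ℝ → ℝ} (hf : Function.Periodic f (2 * Real.pi)) : Function.Periodic (deriv f) (2 * Real.pi) := by
  intro θ
  have h1 : deriv (fun x => f (x + 2 * Real.pi)) θ = deriv f (θ + 2 * Real.pi) := deriv_comp_add_const ..
  rw [← h1]
  congr 1
  funext x
  exact hf x

theorem UU_per {p : ℝ → ℝ} (hp : Sp p) (u : ℂ → ℝ) (t : ℝ) : Function.Periodic (UU p u t) (2 * Real.pi) := by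
  intro θ
  unfold UU Ph ga
  rw [ee_per θ, hp.per θ, dper hp.per θ]

theorem rr_per {p : ℝ → ℝ} (hp : Sp p) : Function.Periodic (rr p) (2 * Real.pi) := by
  intro θ
  unfold rr
  rw [hp.per θ, dper (dper hp.per) θ]

theorem rr_int {p : ℝ → ℝ} (hp : Sp p) : ∫ θ in (0 : ℝ)..(2 * Real.pi), rr p θ = Lp p := by
  unfold rr Lp
  have h1 : Continuous (deriv (deriv p)) := (dp_c1 hp).continuous_deriv le_rfl
  rw [intervalIntegral.integral_add (hp.c2.continuous.intervalIntegrable _ _) (h1.intervalIntegrable _ _)]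
  have h2 : ∫ θ in (0 : ℝ)..(2 * Real.pi), deriv (deriv p) θ = deriv p (2 * Real.pi) - deriv p 0 :=
    intervalIntegral.integral_eq_sub_of_hasDerivAt
      (fun θ _ => ((dp_c1 hp).differentiable one_ne_zero).differentiableAt.hasDerivAt) (h1.intervalIntegrable _ _)
  have h3 : deriv p (2 * Real.pi) = deriv p 0 := by
    have := dper hp.per 0
    rw [zero_add] at this
    exact this
  rw [h2, h3]
  ring

theorem UU_line {p : ℝ → ℝ} (hp : Sp p) {u : ℂ → ℝ} (hu : ContDiff ℝ 1 u) (t : ℝ) : Continuous (UU p u t) :=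
  (UU_cont hp hu).comp (by fun_prop : Continuous fun θ : ℝ => (t, θ))

theorem Ut_line {p : ℝ → ℝ} (hp : Sp p) {u : ℂ → ℝ} (hu : ContDiff ℝ 1 u) (t : ℝ) : Continuous (Ut p u t) :=
  (Ut_cont hp hu).comp (by fun_prop : Continuous fun θ : ℝ => (t, θ))

theorem Us_line {p : ℝ → ℝ} (hp : Sp p) {u : ℂ → ℝ} (hu : ContDiff ℝ 1 u) (t : ℝ) : Continuous (Us p u t) :=
  (Us_cont hp hu).comp (by fun_prop : Continuous fun θ : ℝ => (t, θ))

noncomputable def A (p : ℝ → ℝ) (u : ℂ → ℝ) (t : ℝ) : ℝ := ∫ θ in (0 : ℝ)..(2 * Real.pi), UU p u t θ ^ 2 * (rr p θ + t)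
noncomputable def B (p : ℝ → ℝ) (u : ℂ → ℝ) (t : ℝ) : ℝ := ∫ θ in (0 : ℝ)..(2 * Real.pi), UU p u t θ * (rr p θ + t)
noncomputable def A' (p : ℝ → ℝ) (u : ℂ → ℝ) (t : ℝ) : ℝ :=
  ∫ θ in (0 : ℝ)..(2 * Real.pi), (2 * UU p u t θ * Ut p u t θ * (rr p θ + t) + UU p u t θ ^ 2)
noncomputable def B' (p : ℝ → ℝ) (u : ℂ → ℝ) (t : ℝ) : ℝ :=
  ∫ θ in (0 : ℝ)..(2 * Real.pi), (Ut p u t θ * (rr p θ + t) + UU p u t θ)

theorem A_deriv {p : ℝ → ℝ} (hp : Sp p) {u : ℂ → ℝ} (hu : ContDiff ℝ 1 u) (t : ℝ) : HasDerivAt (A p u) (A' p u t) t := by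
  refine hd_int (f := fun t θ => UU p u t θ ^ 2 * (rr p θ + t))
    (f' := fun t θ => 2 * UU p u t θ * Ut p u t θ * (rr p θ + t) + UU p u t θ ^ 2) ?_ ?_ ?_ t
  · intro t
    have h1 := UU_line hp hu t
    have h2 := rr_cont hp
    exact (h1.pow 2).mul (h2.add continuous_const)
  · have h1 := UU_cont hp hu
    have h2 := Ut_cont hp hu
    have h3 : Continuous (fun q : ℝ × ℝ => rr p q.2 + q.1) := ((rr_cont hp).comp continuous_snd).add continuous_fst
    exact (((continuous_const.mul h1).mul h2).mul h3).add (h1.pow 2)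
  · intro t θ
    have h1 := ((UU_dt p hu t θ).pow 2).mul ((hasDerivAt_id t).const_add (rr p θ))
    refine h1.congr_deriv ?_
    simp only [Nat.cast_ofNat, id, Pi.pow_apply]
    ring

theorem B_deriv {p : ℝ → ℝ} (hp : Sp p) {u : ℂ → ℝ} (hu : ContDiff ℝ 1 u) (t : ℝ) : HasDerivAt (B p u) (B' p u t) t := by
  refine hd_int (f := fun t θ => UU p u t θ * (rr p θ + t))
    (f' := fun t θ => Ut p u t θ * (rr p θ + t) + UU p u t θ) ?_ ?_ ?_ t
  · intro t
    have h1 := UU_line hp hu t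
    have h2 := rr_cont hp
    exact h1.mul (h2.add continuous_const)
  · have h1 := UU_cont hp hu
    have h2 := Ut_cont hp hu
    have h3 : Continuous (fun q : ℝ × ℝ => rr p q.2 + q.1) := ((rr_cont hp).comp continuous_snd).add continuous_fst
    exact (h2.mul h3).add h1
  · intro t θ
    have h1 := (UU_dt p hu t θ).mul ((hasDerivAt_id t).const_add (rr p θ))
    refine h1.congr_deriv ?_
    simp

theorem om_int {p : ℝ → ℝ} (hp : Sp p) (t : ℝ) : ∫ θ in (0 : ℝ)..(2 * Real.pi), (rr p θ + t) = Lp p + 2 * Real.pi * t := by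
  rw [intervalIntegral.integral_add ((rr_cont hp).intervalIntegrable _ _) intervalIntegrable_const, rr_int hp]
  simp

/-- variance -/
theorem h_eq {p : ℝ → ℝ} (hp : Sp p) {u : ℂ → ℝ} (hu : ContDiff ℝ 1 u) (t m : ℝ) :
    ∫ θ in (0 : ℝ)..(2 * Real.pi), (UU p u t θ - m) ^ 2 * (rr p θ + t) =
      A p u t - 2 * m * B p u t + m ^ 2 * (Lp p + 2 * Real.pi * t) := by
  have h1 := UU_line hp hu t
  have h2 := rr_cont hp
  have e : ∀ θ : ℝ, (UU p u t θ - m) ^ 2 * (rr p θ + t) = UU p u t θ ^ 2 * (rr p θ + t) +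
      (-(2 * m) * (UU p u t θ * (rr p θ + t)) + m ^ 2 * (rr p θ + t)) := by
    intro θ
    ring
  simp only [e]
  rw [intervalIntegral.integral_add ((by fun_prop : Continuous _).intervalIntegrable _ _)
      ((by fun_prop : Continuous _).intervalIntegrable _ _),
    intervalIntegral.integral_add ((by fun_prop : Continuous _).intervalIntegrable _ _)
      ((by fun_prop : Continuous _).intervalIntegrable _ _),
    intervalIntegral.integral_const_mul, intervalIntegral.integral_const_mul, om_int hp]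
  unfold A B
  ring

/-- derivative of the variance -/
theorem dh_eq {p : ℝ → ℝ} (hp : Sp p) {u : ℂ → ℝ} (hu : ContDiff ℝ 1 u) (t m : ℝ) :
    ∫ θ in (0 : ℝ)..(2 * Real.pi), (2 * (UU p u t θ - m) * Ut p u t θ * (rr p θ + t) + (UU p u t θ - m) ^ 2) =
      A' p u t - 2 * m * B' p u t + m ^ 2 * (2 * Real.pi) := by
  have h1 := UU_line hp hu t
  have h2 := rr_cont hp
  have h3 := Ut_line hp hu t
  have e : ∀ θ : ℝ, 2 * (UU p u t θ - m) * Ut p u t θ * (rr p θ + t) + (UU p u t θ - m) ^ 2 =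
      (2 * UU p u t θ * Ut p u t θ * (rr p θ + t) + UU p u t θ ^ 2) +
      (-(2 * m) * (Ut p u t θ * (rr p θ + t) + UU p u t θ) + m ^ 2 * 1) := by
    intro θ
    ring
  simp only [e]
  have c1 : Continuous (fun θ => 2 * UU p u t θ * Ut p u t θ * (rr p θ + t) + UU p u t θ ^ 2) := by fun_prop
  have c2 : Continuous (fun θ => -(2 * m) * (Ut p u t θ * (rr p θ + t) + UU p u t θ)) := by fun_prop
  have c3 : Continuous (fun _ : ℝ => m ^ 2 * (1 : ℝ)) := by fun_prop
  have c4 : Continuous (fun θ => -(2 * m) * (Ut p u t θ * (rr p θ + t) + UU p u t θ) + m ^ 2 * (1 : ℝ)) := by fun_prop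
  rw [intervalIntegral.integral_add (c1.intervalIntegrable _ _) (c4.intervalIntegrable _ _),
    intervalIntegral.integral_add (c2.intervalIntegrable _ _) (c3.intervalIntegrable _ _),
    intervalIntegral.integral_const_mul, intervalIntegral.integral_const_mul]
  unfold A' B'
  simp
  ring

theorem E_cont {p : ℝ → ℝ} (hp : Sp p) {u : ℂ → ℝ} (hu : ContDiff ℝ 1 u) : Continuous (EE p u) := by
  unfold EE
  refine intervalIntegral.continuous_parametric_intervalIntegral_of_continuous' ?_ _ _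
  have h3 : Continuous (fun q : ℝ × ℝ => rr p q.2 + q.1) := ((rr_cont hp).comp continuous_snd).add continuous_fst
  exact h3.mul (((fd_cont hu).comp (Ph_cont hp)).norm.pow 2)

/-- `X + Y ≤ E` -/
theorem XY_le {p : ℝ → ℝ} (hp : Sp p) {u : ℂ → ℝ} (hu : ContDiff ℝ 1 u) {t : ℝ} (ht : 0 ≤ t) :
    (∫ θ in (0 : ℝ)..(2 * Real.pi), Ut p u t θ ^ 2 * (rr p θ + t)) +
      (∫ θ in (0 : ℝ)..(2 * Real.pi), Us p u t θ ^ 2 * (rr p θ + t)) ≤ EE p u t := by
  have h1 := Ut_line hp hu t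
  have h2 := Us_line hp hu t
  have h3 := rr_cont hp
  have h4 : Continuous (fun θ : ℝ => (rr p θ + t) * ‖fderiv ℝ u (Ph p t θ)‖ ^ 2) :=
    (h3.add continuous_const).mul ((((fd_cont hu).comp (Ph_cont hp)).comp
      (by fun_prop : Continuous fun θ : ℝ => (t, θ))).norm.pow 2)
  rw [← intervalIntegral.integral_add ((by fun_prop : Continuous _).intervalIntegrable _ _)
      ((by fun_prop : Continuous _).intervalIntegrable _ _)]
  unfold EE
  refine intervalIntegral.integral_mono (by positivity) ((by fun_prop : Continuous _).intervalIntegrable _ _)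
    (h4.intervalIntegrable _ _) fun θ => ?_
  have h5 := sq_le' (fderiv ℝ u (Ph p t θ)) θ
  have h6 : 0 ≤ rr p θ + t := add_nonneg (hp.nn θ) ht
  have h7 := mul_le_mul_of_nonneg_left h5 h6
  show Ut p u t θ ^ 2 * (rr p θ + t) + Us p u t θ ^ 2 * (rr p θ + t) ≤ (rr p θ + t) * ‖fderiv ℝ u (Ph p t θ)‖ ^ 2
  unfold Ut Us
  linarith

/-- the weighted Wirtinger inequality on the parallel curve -/
theorem wi_t (hw : WwStmt) {p : ℝ → ℝ} (hp : Sp p) {u : ℂ → ℝ} (hu : ContDiff ℝ 1 u) {t : ℝ} (ht : 0 < t) :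
    ∫ θ in (0 : ℝ)..(2 * Real.pi), (UU p u t θ - B p u t / (Lp p + 2 * Real.pi * t)) ^ 2 * (rr p θ + t) ≤
      ((Lp p + 2 * Real.pi * t) / (2 * Real.pi)) ^ 2 * ∫ θ in (0 : ℝ)..(2 * Real.pi), Us p u t θ ^ 2 * (rr p θ + t) := by
  have hpos : ∀ θ, 0 < rr p θ + t := fun θ => add_pos_of_nonneg_of_pos (hp.nn θ) ht
  have hd : deriv (UU p u t) = fun θ => (rr p θ + t) * Us p u t θ := funext fun θ => (UU_dθ hp hu t θ).deriv
  have hc1 : ContDiff ℝ 1 (UU p u t) := by
    rw [contDiff_one_iff_deriv]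
    refine ⟨fun θ => (UU_dθ hp hu t θ).differentiableAt, ?_⟩
    rw [hd]
    exact ((rr_cont hp).add continuous_const).mul (Us_line hp hu t)
  have h := hw (fun θ => rr p θ + t) (UU p u t) ((rr_cont hp).add continuous_const) hpos
    (fun θ => by show rr p (θ + 2 * Real.pi) + t = rr p θ + t; rw [rr_per hp θ]) hc1 (UU_per hp u t)
    ((Lp p + 2 * Real.pi * t) / (2 * Real.pi)) (B p u t / (Lp p + 2 * Real.pi * t))
    (by rw [om_int hp]) (by rw [om_int hp]; rfl)
  refine h.trans (le_of_eq ?_)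
  congr 1
  refine intervalIntegral.integral_congr fun θ _ => ?_
  show deriv (UU p u t) θ ^ 2 / (rr p θ + t) = Us p u t θ ^ 2 * (rr p θ + t)
  rw [hd]
  have := (hpos θ).ne'
  field_simp

/-- lower bound of the derivative of the variance -/
theorem dh_ge {p : ℝ → ℝ} (hp : Sp p) {u : ℂ → ℝ} (hu : ContDiff ℝ 1 u) {t : ℝ} (ht : 0 ≤ t) (m : ℝ) {l k : ℝ} (hk : 0 < k)
    (hlk : l * k = 1) :
    -(l * (A p u t - 2 * m * B p u t + m ^ 2 * (Lp p + 2 * Real.pi * t)) +
      k * ∫ θ in (0 : ℝ)..(2 * Real.pi), Ut p u t θ ^ 2 * (rr p θ + t)) ≤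
      A' p u t - 2 * m * B' p u t + m ^ 2 * (2 * Real.pi) := by
  rw [← h_eq hp hu, ← dh_eq hp hu, ← intervalIntegral.integral_const_mul, ← intervalIntegral.integral_const_mul]
  have h1 := UU_line hp hu t
  have h2 := rr_cont hp
  have h3 := Ut_line hp hu t
  rw [← intervalIntegral.integral_add ((by fun_prop : Continuous _).intervalIntegrable _ _)
      ((by fun_prop : Continuous _).intervalIntegrable _ _), ← intervalIntegral.integral_neg]
  refine intervalIntegral.integral_mono (by positivity) ((by fun_prop : Continuous _).intervalIntegrable _ _)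
    ((by fun_prop : Continuous _).intervalIntegrable _ _) fun θ => ?_
  have h6 : 0 ≤ rr p θ + t := add_nonneg (hp.nn θ) ht
  show -(l * ((UU p u t θ - m) ^ 2 * (rr p θ + t)) + k * (Ut p u t θ ^ 2 * (rr p θ + t))) ≤
    2 * (UU p u t θ - m) * Ut p u t θ * (rr p θ + t) + (UU p u t θ - m) ^ 2
  generalize UU p u t θ - m = a
  generalize Ut p u t θ = b
  generalize rr p θ + t = w at *
  have h7 : 0 ≤ w * (k * (l * a + b) ^ 2) := by positivity
  have h8 : w * (k * (l * a + b) ^ 2) = l * (a ^ 2 * w) + k * (b ^ 2 * w) + 2 * a * b * w := by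
    linear_combination (w * (l * a ^ 2 + 2 * a * b)) * hlk
  have h9 := sq_nonneg a
  linarith

/-- the function whose derivative is estimated -/
noncomputable def G (p : ℝ → ℝ) (u : ℂ → ℝ) (t : ℝ) : ℝ :=
  Lp p / (Lp p + 2 * Real.pi * t) * (A p u t - B p u t ^ 2 / (Lp p + 2 * Real.pi * t))
noncomputable def G' (p : ℝ → ℝ) (u : ℂ → ℝ) (t : ℝ) : ℝ :=
  Lp p / (Lp p + 2 * Real.pi * t) * (A' p u t - 2 * (B p u t / (Lp p + 2 * Real.pi * t)) * B' p u t +
    (B p u t / (Lp p + 2 * Real.pi * t)) ^ 2 * (2 * Real.pi)) -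
  2 * Real.pi * Lp p / (Lp p + 2 * Real.pi * t) ^ 2 * (A p u t - B p u t ^ 2 / (Lp p + 2 * Real.pi * t))

theorem G_deriv {p : ℝ → ℝ} (hp : Sp p) {u : ℂ → ℝ} (hu : ContDiff ℝ 1 u) {t : ℝ} (ht : Lp p + 2 * Real.pi * t ≠ 0) :
    HasDerivAt (G p u) (G' p u t) t := by
  have hq : HasDerivAt (fun t : ℝ => Lp p + 2 * Real.pi * t) (2 * Real.pi) t := by
    simpa using ((hasDerivAt_id t).const_mul (2 * Real.pi)).const_add (Lp p)
  have h1 := (hasDerivAt_const t (Lp p)).div hq ht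
  have h2 := (A_deriv hp hu t).sub (((B_deriv hp hu t).pow 2).div hq ht)
  refine (h1.mul h2).congr_deriv ?_
  unfold G'
  simp only [Pi.div_apply, Pi.sub_apply, Pi.pow_apply]
  field_simp
  ring

theorem h_nn {p : ℝ → ℝ} (hp : Sp p) {u : ℂ → ℝ} (hu : ContDiff ℝ 1 u) {t : ℝ} (hq : 0 < Lp p + 2 * Real.pi * t) :
    A p u t - B p u t ^ 2 / (Lp p + 2 * Real.pi * t) =
      A p u t - 2 * (B p u t / (Lp p + 2 * Real.pi * t)) * B p u t +
        (B p u t / (Lp p + 2 * Real.pi * t)) ^ 2 * (Lp p + 2 * Real.pi * t) := by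
  field_simp
  ring

theorem h_le (hw : WwStmt) {p : ℝ → ℝ} (hp : Sp p) {u : ℂ → ℝ} (hu : ContDiff ℝ 1 u) {t : ℝ} (ht : 0 < t) :
    A p u t - B p u t ^ 2 / (Lp p + 2 * Real.pi * t) ≤
      ((Lp p + 2 * Real.pi * t) / (2 * Real.pi)) ^ 2 * ∫ θ in (0 : ℝ)..(2 * Real.pi), Us p u t θ ^ 2 * (rr p θ + t) := by
  have hL : 0 < Lp p := hp.pos
  have hpi := Real.pi_pos
  have hq : 0 < Lp p + 2 * Real.pi * t := by positivity
  rw [h_nn hp hu hq, ← h_eq hp hu]
  exact wi_t hw hp hu ht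

theorem G'_ge (hw : WwStmt) {p : ℝ → ℝ} (hp : Sp p) {u : ℂ → ℝ} (hu : ContDiff ℝ 1 u) {t : ℝ} (ht : 0 < t) {α : ℝ} (hα : 0 < α)
    (hα2 : α * (1 + α) = 1) : -(Lp p / (2 * Real.pi * α) * EE p u t) ≤ G' p u t := by
  have hL : 0 < Lp p := hp.pos
  have hpi := Real.pi_pos
  obtain ⟨q, hqd⟩ : ∃ q, q = Lp p + 2 * Real.pi * t := ⟨_, rfl⟩
  have hq : 0 < q := by rw [hqd]; positivity
  have h1 := h_le hw hp hu ht
  have h2 := XY_le hp hu ht.le
  have h3 := dh_ge hp hu ht.le (B p u t / q) (l := 2 * Real.pi * α / q) (k := q / (2 * Real.pi * α)) (by positivity)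
    (by field_simp)
  unfold G'
  rw [← hqd] at h1 h3 ⊢
  have h4 := h_nn hp hu (t := t) (by rw [← hqd]; exact hq)
  rw [← hqd] at h4
  rw [← h4] at h3
  generalize A p u t - B p u t ^ 2 / q = h at *
  generalize (∫ θ in (0 : ℝ)..(2 * Real.pi), Ut p u t θ ^ 2 * (rr p θ + t)) = X at *
  generalize (∫ θ in (0 : ℝ)..(2 * Real.pi), Us p u t θ ^ 2 * (rr p θ + t)) = Y at *
  generalize A' p u t - 2 * (B p u t / q) * B' p u t + (B p u t / q) ^ 2 * (2 * Real.pi) = H at *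
  generalize Lp p = L at *
  have h5 := mul_le_mul_of_nonneg_left h3 (by positivity : 0 ≤ L / q)
  have h6 := mul_le_mul_of_nonneg_left h1 (by positivity : 0 ≤ 2 * Real.pi * L / q ^ 2 * (1 + α))
  have h7 := mul_le_mul_of_nonneg_left h2 (by positivity : 0 ≤ L / (2 * Real.pi * α))
  have e1 : L / q * -(2 * Real.pi * α / q * h + q / (2 * Real.pi * α) * X) =
      -(2 * Real.pi * L / q ^ 2 * α * h) - L / (2 * Real.pi * α) * X := by
    field_simp
    ring
  have e2 : 2 * Real.pi * L / q ^ 2 * (1 + α) * ((q / (2 * Real.pi)) ^ 2 * Y) = L / (2 * Real.pi * α) * Y := by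
    have : 1 + α = 1 / α := by field_simp; linarith
    rw [this]
    field_simp
  rw [e1] at h5
  rw [e2] at h6
  linarith

/-- `G` is small somewhere -/
theorem G_small (hw : WwStmt) {p : ℝ → ℝ} (hp : Sp p) {u : ℂ → ℝ} (hu : ContDiff ℝ 1 u)
    (hint : IntegrableOn (fun t => EE p u t) (Ioi 0)) {ε : ℝ} (hε : 0 < ε) : ∃ T : ℝ, 0 < T ∧ G p u T < ε := by
  have hL : 0 < Lp p := hp.pos
  have hpi := Real.pi_pos
  by_contra hcon
  push Not at hcon
  have hE : ∀ T : ℝ, Lp p < T → 4 * Real.pi ^ 2 * ε / ((1 + 2 * Real.pi) * Lp p) * T⁻¹ ≤ EE p u T := by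
    intro T hT
    have hT0 : 0 < T := hL.trans hT
    have h1 := hcon T hT0
    have h2 := h_le hw hp hu hT0
    have h3 := XY_le hp hu hT0.le
    have hX : 0 ≤ ∫ θ in (0 : ℝ)..(2 * Real.pi), Ut p u T θ ^ 2 * (rr p θ + T) :=
      intervalIntegral.integral_nonneg (by positivity) fun θ _ => mul_nonneg (sq_nonneg _) (add_nonneg (hp.nn θ) hT0.le)
    unfold G at h1
    obtain ⟨q, hqd⟩ : ∃ q, q = Lp p + 2 * Real.pi * T := ⟨_, rfl⟩
    have hq : 0 < q := by rw [hqd]; positivity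
    have hqT : q ≤ (1 + 2 * Real.pi) * T := by rw [hqd]; nlinarith
    rw [← hqd] at h1 h2
    have h4 : ε ≤ Lp p / q * ((q / (2 * Real.pi)) ^ 2 * EE p u T) := by
      refine h1.trans (mul_le_mul_of_nonneg_left (h2.trans ?_) (by positivity))
      exact mul_le_mul_of_nonneg_left (by linarith) (by positivity)
    have h5 : Lp p / q * ((q / (2 * Real.pi)) ^ 2 * EE p u T) = Lp p * q * EE p u T / (4 * Real.pi ^ 2) := by
      field_simp
      ring
    rw [h5, le_div_iff₀ (by positivity)] at h4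
    have hE0 : 0 ≤ EE p u T := by
      have : 0 ≤ ∫ θ in (0 : ℝ)..(2 * Real.pi), Us p u T θ ^ 2 * (rr p θ + T) :=
        intervalIntegral.integral_nonneg (by positivity) fun θ _ => mul_nonneg (sq_nonneg _) (add_nonneg (hp.nn θ) hT0.le)
      linarith
    have h6 : Lp p * q * EE p u T ≤ Lp p * ((1 + 2 * Real.pi) * T) * EE p u T :=
      mul_le_mul_of_nonneg_right (mul_le_mul_of_nonneg_left hqT hL.le) hE0
    have h7 : 4 * Real.pi ^ 2 * ε / ((1 + 2 * Real.pi) * Lp p) * T⁻¹ = 4 * Real.pi ^ 2 * ε / ((1 + 2 * Real.pi) * Lp p * T) := by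
      field_simp
    rw [h7, div_le_iff₀ (by positivity)]
    linarith
  have h8 : IntegrableOn (fun T : ℝ => 4 * Real.pi ^ 2 * ε / ((1 + 2 * Real.pi) * Lp p) * T⁻¹) (Ioi (Lp p)) := by
    refine Integrable.mono' (hint.mono_set (Ioi_subset_Ioi hL.le)) (by fun_prop) ?_
    refine (ae_restrict_iff' measurableSet_Ioi).2 (Eventually.of_forall fun T hT => ?_)
    have hT0 : 0 < T := hL.trans hT
    rw [Real.norm_eq_abs, abs_of_nonneg (by positivity)]
    exact hE T hT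
  have h9 : IntegrableOn (fun T : ℝ => T⁻¹) (Ioi (Lp p)) := by
    have h10 := h8.const_mul (4 * Real.pi ^ 2 * ε / ((1 + 2 * Real.pi) * Lp p))⁻¹
    have e : (fun T : ℝ => T⁻¹) = fun T : ℝ => (4 * Real.pi ^ 2 * ε / ((1 + 2 * Real.pi) * Lp p))⁻¹ *
        (4 * Real.pi ^ 2 * ε / ((1 + 2 * Real.pi) * Lp p) * T⁻¹) := by
      funext T
      rw [← mul_assoc, inv_mul_cancel₀ (by positivity), one_mul]
    rw [e]
    exact h10
  exact not_integrableOn_Ioi_inv h9

end Pool.Agent.H74.CV.TrcH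

namespace Pool.Agent.H74.CV

open MeasureTheory Set Filter Topology Pool.Agent.H74.SX

open TrcH in
/-- `Trc`: the trace inequality. -/
theorem trc (hw : WwStmt) : TrcStmt := by
  intro p hp u hu hint
  have hL : 0 < Lp p := hp.pos
  have hpi := Real.pi_pos
  obtain ⟨α, hαd⟩ : ∃ α : ℝ, α = (Real.sqrt 5 - 1) / 2 := ⟨_, rfl⟩
  have h5 : Real.sqrt 5 ^ 2 = 5 := Real.sq_sqrt (by norm_num)
  have h51 : 1 < Real.sqrt 5 := by
    rw [Real.lt_sqrt (by norm_num)]
    norm_num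
  have hα : 0 < α := by rw [hαd]; linarith
  have hα2 : α * (1 + α) = 1 := by
    rw [hαd]
    linear_combination h5 / 4
  have hK : Lp p * (Real.sqrt 5 + 1) / (4 * Real.pi) = Lp p / (2 * Real.pi * α) := by
    have : Real.sqrt 5 + 1 = 2 / α := by
      rw [eq_div_iff hα.ne', hαd]
      linear_combination h5 / 2
    rw [this]
    field_simp
    ring
  rw [hK]
  have h0 : ab p (fun z => (u z - ab p u / Lp p) ^ 2) = G p u 0 := by
    have e1 : ∀ θ, UU p u 0 θ = u (ga p θ) := by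
      intro θ
      unfold UU Ph
      simp
    have e2 : ab p u = B p u 0 := by
      unfold ab B
      simp only [e1, add_zero]
    have e3 : ab p (fun z => (u z - ab p u / Lp p) ^ 2) =
        ∫ θ in (0 : ℝ)..(2 * Real.pi), (UU p u 0 θ - B p u 0 / Lp p) ^ 2 * (rr p θ + 0) := by
      rw [← e2]
      simp only [e1, add_zero]
      rfl
    rw [e3, h_eq hp hu]
    unfold G
    simp only [mul_zero, add_zero]
    have := hL.ne'
    field_simp
    ring
  rw [h0]
  have hEc := E_cont hp hu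
  have hE0 : ∀ t, 0 ≤ t → 0 ≤ EE p u t := fun t ht => by
    unfold EE
    exact intervalIntegral.integral_nonneg (by positivity) fun θ _ => mul_nonneg (add_nonneg (hp.nn θ) ht) (sq_nonneg _)
  refine le_of_forall_pos_le_add fun ε hε => ?_
  obtain ⟨T, hT, hTε⟩ := G_small hw hp hu hint hε
  have hq : ∀ t : ℝ, 0 ≤ t → Lp p + 2 * Real.pi * t ≠ 0 := fun t ht => by positivity
  have hge : -(∫ t in (0 : ℝ)..T, Lp p / (2 * Real.pi * α) * EE p u t) ≤ G p u T - G p u 0 := by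
    rw [← intervalIntegral.integral_neg]
    refine intervalIntegral.integral_le_sub_of_hasDeriv_right_of_le (g := G p u) hT.le (fun t ht => ?_)
      (fun t ht => ?_) (g' := G' p u) ?_ (fun t ht => ?_)
    · exact (G_deriv hp hu (hq t ht.1)).continuousAt.continuousWithinAt
    · exact (G_deriv hp hu (hq t ht.1.le)).hasDerivWithinAt
    · exact ((continuous_const.mul hEc).neg).continuousOn.integrableOn_compact isCompact_Icc
    · exact G'_ge hw hp hu ht.1 hα hα2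
  have hle : ∫ t in (0 : ℝ)..T, EE p u t ≤ ∫ t in Ioi (0 : ℝ), EE p u t := by
    rw [intervalIntegral.integral_of_le hT.le]
    refine setIntegral_mono_set hint ?_ (Eventually.of_forall fun t ht => ht.1)
    exact (ae_restrict_iff' measurableSet_Ioi).2 (Eventually.of_forall fun t ht => hE0 t (le_of_lt ht))
  rw [intervalIntegral.integral_const_mul] at hge
  have h8 := mul_le_mul_of_nonneg_left hle (by positivity : 0 ≤ Lp p / (2 * Real.pi * α))
  linarith

end Pool.Agent.H74.CV
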