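import Pool.Agent.H74.CV.Fr

set_option autoImplicit false

/-!
# [H74 CV Upp] the upper bound for the second interior value (helper53)
-/

namespace Pool.Agent.H74.CV

open MeasureTheory Set Filter Topology Pool.Agent.H74.SX

namespace UppAux

theorem cont_ee : Continuous ee := by
  unfold ee
  fun_prop

theorem c1 {p : ℝ → ℝ} (h : Sp p) : ContDiff ℝ 1 (deriv p) := by
  have h2 := h.c2
  rw [show (2 : WithTop ℕ∞) = 1 + 1 from by norm_num, contDiff_succ_iff_deriv] at h2
  exact h2.2.2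

theorem cont_d {p : ℝ → ℝ} (h : Sp p) : Continuous (deriv p) := (c1 h).continuous

theorem cont_dd {p : ℝ → ℝ} (h : Sp p) : Continuous (deriv (deriv p)) :=
  (c1 h).continuous_deriv le_rfl

theorem cont_rr {p : ℝ → ℝ} (h : Sp p) : Continuous (rr p) := by
  unfold rr
  exact h.c2.continuous.add (cont_dd h)

theorem cont_ga {p : ℝ → ℝ} (h : Sp p) : Continuous (ga p) := by
  unfold ga
  exact ((Complex.continuous_ofReal.comp h.c2.continuous).add
    ((Complex.continuous_ofReal.comp (cont_d h)).mul continuous_const)).mul cont_ee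

theorem ab_quad {p : ℝ → ℝ} (h : Sp p) (a b c : ℝ) :
    ab p (fun z => a * z.re ^ 2 + b * z.re + c) =
      a * ab p (fun z => z.re ^ 2) + b * ab p (fun z => z.re) + c * ab p (fun _ => 1) := by
  have h2 := cont_rr h
  have h3 : Continuous (fun θ : ℝ => (ga p θ).re) := Complex.continuous_re.comp (cont_ga h)
  have i1 : IntervalIntegrable (fun θ : ℝ => a * ((ga p θ).re ^ 2 * rr p θ)) volume 0 (2 * Real.pi) :=
    (continuous_const.mul ((h3.pow 2).mul h2)).intervalIntegrable _ _
  have i2 : IntervalIntegrable (fun θ : ℝ => b * ((ga p θ).re * rr p θ)) volume 0 (2 * Real.pi) :=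
    (continuous_const.mul (h3.mul h2)).intervalIntegrable _ _
  have i3 : IntervalIntegrable (fun θ : ℝ => c * (1 * rr p θ)) volume 0 (2 * Real.pi) :=
    (continuous_const.mul (continuous_const.mul h2)).intervalIntegrable _ _
  unfold ab
  rw [← intervalIntegral.integral_const_mul, ← intervalIntegral.integral_const_mul,
    ← intervalIntegral.integral_const_mul, ← intervalIntegral.integral_add i1 i2,
    ← intervalIntegral.integral_add (i1.add i2) i3]
  refine intervalIntegral.integral_congr fun θ _ => ?_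
  change (a * (ga p θ).re ^ 2 + b * (ga p θ).re + c) * rr p θ = _
  ring

theorem per_d {p : ℝ → ℝ} (h : Sp p) : deriv p (2 * Real.pi) = deriv p 0 := by
  have h1 : (fun x => p (x + 2 * Real.pi)) = p := funext h.per
  have h2 : deriv (fun x => p (x + 2 * Real.pi)) 0 = deriv p (0 + 2 * Real.pi) := deriv_comp_add_const p (2 * Real.pi) 0
  rw [h1, zero_add] at h2
  exact h2.symm

theorem ab_one {p : ℝ → ℝ} (h : Sp p) : ab p (fun _ => 1) = Lp p := by
  unfold ab Lp rr
  have h1 : ∫ θ in (0 : ℝ)..(2 * Real.pi), deriv (deriv p) θ = deriv p (2 * Real.pi) - deriv p 0 :=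
    intervalIntegral.integral_deriv_eq_sub (fun x _ => (c1 h).differentiable one_ne_zero x)
      ((cont_dd h).intervalIntegrable _ _)
  rw [per_d h, sub_self] at h1
  simp only [one_mul]
  rw [intervalIntegral.integral_add (h.c2.continuous.intervalIntegrable _ _) ((cont_dd h).intervalIntegrable _ _),
    h1, add_zero]

theorem dir_lin (S : Set ℂ) (a b : ℝ) : dir S (fun z => a + b * z.re) = volume.real S * b ^ 2 := by
  have h1 : ∀ z : ℂ, ‖fderiv ℝ (fun z : ℂ => a + b * z.re) z‖ ^ 2 = b ^ 2 := by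
    intro z
    have h2 : HasFDerivAt (fun z : ℂ => a + b * z.re) (b • Complex.reCLM) z := by
      have h3 : HasFDerivAt (fun z : ℂ => b * Complex.reCLM z) (b • Complex.reCLM) z :=
        Complex.reCLM.hasFDerivAt.const_mul b
      exact h3.const_add a
    rw [h2.fderiv, norm_smul, Complex.reCLM_norm, mul_one, Real.norm_eq_abs, sq_abs]
  unfold dir
  simp only [h1]
  rw [setIntegral_const, smul_eq_mul]

end UppAux

open UppAux in
theorem upp : UppStmt := by
  intro p hp D hD0 hD
  obtain ⟨A, hA⟩ : ∃ A, A = ab p (fun z => z.re ^ 2) := ⟨_, rfl⟩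
  obtain ⟨B, hB⟩ : ∃ B, B = ab p (fun z => z.re) := ⟨_, rfl⟩
  obtain ⟨C, hC⟩ : ∃ C, C = ab p (fun _ => 1) := ⟨_, rfl⟩
  have hCL : C = Lp p := hC.trans (ab_one hp)
  have hC0 : 0 < C := by
    rw [hCL]
    exact hp.pos
  rw [← hB, ← hCL] at hD
  obtain ⟨m, hm⟩ : ∃ m, m = B / C := ⟨_, rfl⟩
  rw [← hm] at hD
  have hmC : m * C = B := by
    rw [hm, div_mul_cancel₀ _ hC0.ne']
  have hquad : ∀ a b c : ℝ, ab p (fun z => a * z.re ^ 2 + b * z.re + c) = a * A + b * B + c * C := by
    intro a b c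
    rw [ab_quad hp, ← hA, ← hB, ← hC]
  have hD' : D = A - m * B := by
    have h1 : (fun z : ℂ => (z.re - m) ^ 2) = fun z => 1 * z.re ^ 2 + (-2 * m) * z.re + m ^ 2 := by
      funext z
      ring
    rw [hD, h1, hquad, ← hmC]
    ring
  have hsq : ∀ c : Fin 2 → ℝ, ab p (fun z : ℂ => (∑ i, c i * (![fun _ => 1, fun z => z.re] : Fin 2 → ℂ → ℝ) i z) ^ 2) =
      c 1 ^ 2 * D + (c 0 + c 1 * m) ^ 2 * C := by
    intro c
    have h2 : (fun z : ℂ => (∑ i, c i * (![fun _ => 1, fun z => z.re] : Fin 2 → ℂ → ℝ) i z) ^ 2) =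
        fun z => c 1 ^ 2 * z.re ^ 2 + 2 * c 0 * c 1 * z.re + c 0 ^ 2 := by
      funext z
      rw [Fin.sum_univ_two]
      change (c 0 * 1 + c 1 * z.re) ^ 2 = _
      ring
    rw [h2, hquad, hD', ← hmC]
    ring
  refine sInf_le ⟨volume.real (Dm p) / D, rfl, ![fun _ => 1, fun z => z.re], ?_, ?_, ?_⟩
  · intro i
    fin_cases i
    · exact contDiff_const
    · exact Complex.reCLM.contDiff
  · intro c hc
    rw [hsq]
    by_cases h1 : c 1 = 0
    · have h0 : c 0 ≠ 0 := by
        intro h0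
        refine hc (funext fun i => ?_)
        fin_cases i
        · exact h0
        · exact h1
      have h2 : 0 < c 0 ^ 2 := lt_of_le_of_ne (sq_nonneg _) (Ne.symm (pow_ne_zero 2 h0))
      rw [h1]
      have h3 : (0 : ℝ) ^ 2 * D + (c 0 + 0 * m) ^ 2 * C = c 0 ^ 2 * C := by ring
      rw [h3]
      exact mul_pos h2 hC0
    · have h2 : 0 < c 1 ^ 2 := lt_of_le_of_ne (sq_nonneg _) (Ne.symm (pow_ne_zero 2 h1))
      exact add_pos_of_pos_of_nonneg (mul_pos h2 hD0) (mul_nonneg (sq_nonneg _) hC0.le)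
  · intro c
    have h1 : (fun z : ℂ => ∑ i, c i * (![fun _ => 1, fun z => z.re] : Fin 2 → ℂ → ℝ) i z) =
        fun z => c 0 + c 1 * z.re := by
      funext z
      rw [Fin.sum_univ_two]
      change c 0 * 1 + c 1 * z.re = _
      rw [mul_one]
    rw [hsq, h1, dir_lin]
    have h4 : volume.real (Dm p) / D * (c 1 ^ 2 * D) = volume.real (Dm p) * c 1 ^ 2 := by
      field_simp
    have h5 : 0 ≤ volume.real (Dm p) / D * ((c 0 + c 1 * m) ^ 2 * C) :=
      mul_nonneg (div_nonneg measureReal_nonneg hD0.le) (mul_nonneg (sq_nonneg _) hC0.le)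
    rw [mul_add, h4]
    linarith

end Pool.Agent.H74.CV
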