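import Pool.Agent.H74.CV.Fr

set_option autoImplicit false

/-!
# [H74 CV Wdt] the second moment and the width (helper24)
-/

namespace Pool.Agent.H74.CV.WdtAux

open MeasureTheory Set Filter Topology Pool.Agent.H74.SX Pool.Agent.H74.CV

theorem re_eq (p : ℝ → ℝ) (θ : ℝ) : (ga p θ).re = p θ * Real.cos θ - deriv p θ * Real.sin θ := by
  unfold ga ee
  rw [Complex.exp_mul_I, Complex.mul_re]
  simp [Complex.cos_ofReal_re, Complex.sin_ofReal_re, Complex.cos_ofReal_im, Complex.sin_ofReal_im]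

theorem d1 {p : ℝ → ℝ} (h : ContDiff ℝ 2 p) : ContDiff ℝ 1 (deriv p) := by
  have h2 : ContDiff ℝ (1 + 1) p := by
    norm_num
    exact h
  exact (contDiff_succ_iff_deriv.1 h2).2.2

theorem rr_cont {p : ℝ → ℝ} (h : ContDiff ℝ 2 p) : Continuous (rr p) :=
  h.continuous.add ((d1 h).continuous_deriv le_rfl)

theorem x_deriv {p : ℝ → ℝ} (h : ContDiff ℝ 2 p) (θ : ℝ) :
    HasDerivAt (fun θ => (ga p θ).re) (-(rr p θ * Real.sin θ)) θ := by
  have e : (fun θ => (ga p θ).re) = fun θ => p θ * Real.cos θ - deriv p θ * Real.sin θ := by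
    funext θ
    exact re_eq p θ
  rw [e]
  have h1 : HasDerivAt p (deriv p θ) θ := ((h.differentiable (by norm_num)) θ).hasDerivAt
  have h2 : HasDerivAt (deriv p) (deriv (deriv p) θ) θ := (((d1 h).differentiable (by norm_num)) θ).hasDerivAt
  have h3 := (h1.mul (Real.hasDerivAt_cos θ)).sub (h2.mul (Real.hasDerivAt_sin θ))
  refine h3.congr_deriv ?_
  unfold rr
  ring

theorem x_cont {p : ℝ → ℝ} (h : ContDiff ℝ 2 p) : Continuous fun θ => (ga p θ).re :=
  continuous_iff_continuousAt.2 fun θ => (x_deriv h θ).continuousAt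

theorem cube_deriv {p : ℝ → ℝ} (h : ContDiff ℝ 2 p) (m θ : ℝ) :
    HasDerivAt (fun θ => ((ga p θ).re - m) ^ 3 / 3) (((ga p θ).re - m) ^ 2 * -(rr p θ * Real.sin θ)) θ := by
  have h1 := (((x_deriv h θ).sub_const m).pow 3).div_const 3
  refine h1.congr_deriv ?_
  push_cast
  ring

theorem int_cube {p : ℝ → ℝ} (h : ContDiff ℝ 2 p) (m a b : ℝ) :
    ∫ θ in a..b, ((ga p θ).re - m) ^ 2 * -(rr p θ * Real.sin θ) =
      ((ga p b).re - m) ^ 3 / 3 - ((ga p a).re - m) ^ 3 / 3 :=
  intervalIntegral.integral_eq_sub_of_hasDerivAt (fun θ _ => cube_deriv h m θ)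
    (((((x_cont h).sub continuous_const).pow 2).mul ((rr_cont h).mul Real.continuous_sin).neg).intervalIntegrable _ _)

end Pool.Agent.H74.CV.WdtAux

namespace Pool.Agent.H74.CV

open MeasureTheory Set Filter Topology Pool.Agent.H74.SX WdtAux

theorem wdt : WdtStmt := by
  intro p hp m
  have h := hp.c2
  have hxc := x_cont h
  have hrc := rr_cont h
  have hpi := Real.pi_pos
  have x0 : (ga p 0).re = p 0 := by rw [re_eq]; simp
  have xp : (ga p Real.pi).re = -p Real.pi := by rw [re_eq]; simp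
  have x2 : (ga p (2 * Real.pi)).re = p 0 := by
    rw [re_eq, Real.cos_two_pi, Real.sin_two_pi]
    have h1 := hp.per 0
    rw [zero_add] at h1
    rw [h1]
    ring
  have hrn : ∀ θ, 0 ≤ rr p θ := hp.nn
  have hS : 0 ≤ p 0 + p Real.pi := by
    have h1 : ∫ θ in (0 : ℝ)..Real.pi, -(rr p θ * Real.sin θ) = (ga p Real.pi).re - (ga p 0).re :=
      intervalIntegral.integral_eq_sub_of_hasDerivAt (fun θ _ => x_deriv h θ)
        ((hrc.mul Real.continuous_sin).neg.intervalIntegrable _ _)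
    rw [intervalIntegral.integral_neg] at h1
    have h2 : 0 ≤ ∫ θ in (0 : ℝ)..Real.pi, rr p θ * Real.sin θ :=
      intervalIntegral.integral_nonneg hpi.le fun θ hθ =>
        mul_nonneg (hrn θ) (Real.sin_nonneg_of_nonneg_of_le_pi hθ.1 hθ.2)
    rw [x0, xp] at h1
    linarith
  refine ⟨hS, ?_⟩
  have hFc : Continuous fun θ => ((ga p θ).re - m) ^ 2 * rr p θ := ((hxc.sub continuous_const).pow 2).mul hrc
  have hGc : Continuous fun θ => ((ga p θ).re - m) ^ 2 * -(rr p θ * Real.sin θ) :=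
    ((hxc.sub continuous_const).pow 2).mul (hrc.mul Real.continuous_sin).neg
  have e1 : ab p (fun z => (z.re - m) ^ 2) =
      (∫ θ in (0 : ℝ)..Real.pi, ((ga p θ).re - m) ^ 2 * rr p θ) +
        ∫ θ in Real.pi..(2 * Real.pi), ((ga p θ).re - m) ^ 2 * rr p θ := by
    unfold ab
    exact (intervalIntegral.integral_add_adjacent_intervals (hFc.intervalIntegrable _ _) (hFc.intervalIntegrable _ _)).symm
  have l1 : ∫ θ in (0 : ℝ)..Real.pi, -(((ga p θ).re - m) ^ 2 * -(rr p θ * Real.sin θ)) ≤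
      ∫ θ in (0 : ℝ)..Real.pi, ((ga p θ).re - m) ^ 2 * rr p θ := by
    refine intervalIntegral.integral_mono_on hpi.le (hGc.neg.intervalIntegrable _ _) (hFc.intervalIntegrable _ _)
      fun θ hθ => ?_
    have h1 : rr p θ * Real.sin θ ≤ rr p θ := mul_le_of_le_one_right (hrn θ) (Real.sin_le_one θ)
    have h2 := mul_le_mul_of_nonneg_left h1 (sq_nonneg ((ga p θ).re - m))
    linarith
  have l2 : ∫ θ in Real.pi..(2 * Real.pi), ((ga p θ).re - m) ^ 2 * -(rr p θ * Real.sin θ) ≤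
      ∫ θ in Real.pi..(2 * Real.pi), ((ga p θ).re - m) ^ 2 * rr p θ := by
    refine intervalIntegral.integral_mono_on (by linarith) (hGc.intervalIntegrable _ _) (hFc.intervalIntegrable _ _)
      fun θ hθ => ?_
    refine mul_le_mul_of_nonneg_left ?_ (sq_nonneg _)
    have h1 : rr p θ * -Real.sin θ ≤ rr p θ := mul_le_of_le_one_right (hrn θ) (by linarith [Real.neg_one_le_sin θ])
    linarith
  rw [intervalIntegral.integral_neg, int_cube h, x0, xp] at l1
  rw [int_cube h, x2, xp] at l2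
  rw [e1]
  have key : (p 0 + p Real.pi) ^ 3 ≤ 4 * ((p 0 - m) ^ 3 + (p Real.pi + m) ^ 3) := by
    have h3 : 0 ≤ (p 0 + p Real.pi) * ((p 0 - m) - (p Real.pi + m)) ^ 2 := mul_nonneg hS (sq_nonneg _)
    nlinarith [h3]
  have h4 : (-p Real.pi - m) ^ 3 = -(p Real.pi + m) ^ 3 := by ring
  rw [h4] at l1 l2
  linarith

end Pool.Agent.H74.CV
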