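import Pool.Agent.H74.CV.Fr

set_option autoImplicit false

/-!
# [H74 CV Ww] weighted inequality of Wirtinger (helper87)
-/

namespace Pool.Agent.H74.CV

open MeasureTheory Set Filter Topology Pool.Agent.H74.SX

namespace W87

theorem ww (h : WiStmt) : WwStmt := by
  intro ω f hω hpos hper hf hfper Λ m hΛ hm
  have hpi : (0 : ℝ) < 2 * Real.pi := by positivity
  have hint : ∀ a b : ℝ, IntervalIntegrable ω volume a b := fun a b => hω.intervalIntegrable a b
  have hW : 0 < ∫ θ in (0 : ℝ)..(2 * Real.pi), ω θ :=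
    intervalIntegral.intervalIntegral_pos_of_pos (hint _ _) hpos hpi
  have hΛ0 : 0 < Λ := by rw [hΛ]; positivity
  have hWΛ : (∫ θ in (0 : ℝ)..(2 * Real.pi), ω θ) = 2 * Real.pi * Λ := by
    rw [hΛ]; field_simp
  -- the new parameter
  obtain ⟨s, hs⟩ : ∃ s : ℝ → ℝ, s = fun θ => (∫ x in (0 : ℝ)..θ, ω x) / Λ := ⟨_, rfl⟩
  have hsd : ∀ θ, HasDerivAt s (ω θ / Λ) θ := by
    intro θ
    rw [hs]
    exact (intervalIntegral.integral_hasDerivAt_right (hint 0 θ)
      (hω.stronglyMeasurableAtFilter _ _) hω.continuousAt).div_const Λ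
  have hscont : Continuous s := continuous_iff_continuousAt.2 fun θ => (hsd θ).continuousAt
  have hs0 : s 0 = 0 := by simp [hs]
  have hsmono : StrictMono s := by
    apply strictMono_of_deriv_pos
    intro θ
    rw [(hsd θ).deriv]
    exact div_pos (hpos θ) hΛ0
  have hsper : ∀ θ, s (θ + 2 * Real.pi) = s θ + 2 * Real.pi := by
    intro θ
    have h1 : (∫ x in (0 : ℝ)..(θ + 2 * Real.pi), ω x) = (∫ x in (0 : ℝ)..θ, ω x) + 2 * Real.pi * Λ := by
      rw [← hWΛ, ← intervalIntegral.integral_add_adjacent_intervals (hint 0 θ) (hint θ (θ + 2 * Real.pi))]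
      congr 1
      have h2 := hper.intervalIntegral_add_eq θ 0
      rw [h2, zero_add]
    rw [hs]
    simp only []
    rw [h1]
    field_simp
  have hsn : ∀ n : ℕ, s (n * (2 * Real.pi)) = n * (2 * Real.pi) := by
    intro n
    induction n with
    | zero => simp [hs0]
    | succ n ih =>
      have : ((n + 1 : ℕ) : ℝ) * (2 * Real.pi) = n * (2 * Real.pi) + 2 * Real.pi := by push_cast; ring
      rw [this, hsper, ih]
  have hsn' : ∀ n : ℕ, s (-(n * (2 * Real.pi))) = -(n * (2 * Real.pi)) := by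
    intro n
    induction n with
    | zero => simp [hs0]
    | succ n ih =>
      have h1 := hsper (-(((n + 1 : ℕ) : ℝ) * (2 * Real.pi)))
      have h2 : -(((n + 1 : ℕ) : ℝ) * (2 * Real.pi)) + 2 * Real.pi = -(n * (2 * Real.pi)) := by push_cast; ring
      rw [h2, ih] at h1
      linarith
  have harch : ∀ b : ℝ, ∃ n : ℕ, b ≤ n * (2 * Real.pi) := by
    intro b
    obtain ⟨n, hn⟩ := exists_nat_ge (b / (2 * Real.pi))
    exact ⟨n, (div_le_iff₀ hpi).1 hn⟩
  have hsurj : Function.Surjective s := by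
    apply hscont.surjective
    · apply tendsto_atTop_atTop_of_monotone hsmono.monotone
      intro b
      obtain ⟨n, hn⟩ := harch b
      exact ⟨n * (2 * Real.pi), by rw [hsn]; exact hn⟩
    · apply tendsto_atBot_atBot_of_monotone hsmono.monotone
      intro b
      obtain ⟨n, hn⟩ := harch (-b)
      exact ⟨-(n * (2 * Real.pi)), by rw [hsn']; linarith⟩
  obtain ⟨e, he⟩ : ∃ e : ℝ ≃o ℝ, ∀ x, e x = s x :=
    ⟨StrictMono.orderIsoOfSurjective s hsmono hsurj, fun x => rfl⟩
  obtain ⟨τ, hτ⟩ : ∃ τ : ℝ → ℝ, τ = fun x => e.symm x := ⟨_, rfl⟩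
  have hτc : Continuous τ := by rw [hτ]; exact e.symm.continuous
  have hsτ : ∀ x, s (τ x) = x := by intro x; rw [hτ, ← he]; simp
  have hτs : ∀ x, τ (s x) = x := by intro x; rw [hτ, ← he]; simp
  have hτd : ∀ x, HasDerivAt τ (ω (τ x) / Λ)⁻¹ x := by
    intro x
    exact HasDerivAt.of_local_left_inverse hτc.continuousAt (hsd (τ x))
      (div_pos (hpos _) hΛ0).ne' (Filter.Eventually.of_forall hsτ)
  have hτper : ∀ x, τ (x + 2 * Real.pi) = τ x + 2 * Real.pi := by
    intro x
    have h1 : s (τ x + 2 * Real.pi) = x + 2 * Real.pi := by rw [hsper, hsτ]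
    rw [← h1, hτs]
  -- the transported function
  obtain ⟨g, hg⟩ : ∃ g : ℝ → ℝ, g = fun x => f (τ x) := ⟨_, rfl⟩
  have hfd : ∀ x, HasDerivAt f (deriv f x) x := fun x =>
    ((hf.differentiable (by norm_num)) x).hasDerivAt
  have hfdc : Continuous (deriv f) := hf.continuous_deriv (by norm_num)
  have hgd : ∀ x, HasDerivAt g (deriv f (τ x) * (ω (τ x) / Λ)⁻¹) x := by
    intro x
    rw [hg]
    exact (hfd (τ x)).comp x (hτd x)
  have hgder : deriv g = fun x => deriv f (τ x) * (ω (τ x) / Λ)⁻¹ := by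
    funext x; exact (hgd x).deriv
  have hgdc : Continuous (deriv g) := by
    rw [hgder]
    apply Continuous.mul (hfdc.comp hτc)
    apply Continuous.inv₀ ((hω.comp hτc).div_const Λ)
    intro x
    exact (div_pos (hpos _) hΛ0).ne'
  have hgC : ContDiff ℝ 1 g := by
    rw [contDiff_one_iff_deriv]
    exact ⟨fun x => (hgd x).differentiableAt, hgdc⟩
  have hgper : Function.Periodic g (2 * Real.pi) := by
    intro x
    rw [hg]
    simp only []
    rw [hτper, hfper]
  have hgs : ∀ θ, g (s θ) = f θ := by intro θ; rw [hg]; simp only []; rw [hτs]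
  have hs2 : s (2 * Real.pi) = 2 * Real.pi := by
    have := hsper 0
    rw [zero_add, hs0, zero_add] at this
    exact this
  -- substitution
  have hsub : ∀ G : ℝ → ℝ, Continuous G →
      ∫ x in (0 : ℝ)..(2 * Real.pi), G x = ∫ θ in (0 : ℝ)..(2 * Real.pi), G (s θ) * (ω θ / Λ) := by
    intro G hG
    have h1 := intervalIntegral.integral_comp_mul_deriv (a := 0) (b := 2 * Real.pi) (f := s)
      (f' := fun θ => ω θ / Λ) (g := G) (fun θ _ => hsd θ) ((hω.div_const Λ).continuousOn) hG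
    rw [hs0, hs2] at h1
    rw [← h1]
    rfl
  have hgc : Continuous g := hgC.continuous
  have hmean : (∫ y in (0 : ℝ)..(2 * Real.pi), g y) / (2 * Real.pi) = m := by
    rw [hsub g hgc, hm, hWΛ]
    have h1 : (∫ θ in (0 : ℝ)..(2 * Real.pi), g (s θ) * (ω θ / Λ)) =
        (∫ θ in (0 : ℝ)..(2 * Real.pi), f θ * ω θ) / Λ := by
      rw [← intervalIntegral.integral_div]
      apply intervalIntegral.integral_congr
      intro θ _
      simp only []
      rw [hgs]
      ring
    rw [h1]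
    field_simp
  have hmain := h g hgC hgper
  rw [hmean, hsub (fun x => (g x - m) ^ 2) (by fun_prop), hsub (fun x => deriv g x ^ 2) (hgdc.pow 2)] at hmain
  have h1 : (∫ θ in (0 : ℝ)..(2 * Real.pi), (g (s θ) - m) ^ 2 * (ω θ / Λ)) =
      (∫ θ in (0 : ℝ)..(2 * Real.pi), (f θ - m) ^ 2 * ω θ) / Λ := by
    rw [← intervalIntegral.integral_div]
    apply intervalIntegral.integral_congr
    intro θ _
    simp only []
    rw [hgs]
    ring
  have h2 : (∫ θ in (0 : ℝ)..(2 * Real.pi), deriv g (s θ) ^ 2 * (ω θ / Λ)) =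
      Λ * ∫ θ in (0 : ℝ)..(2 * Real.pi), deriv f θ ^ 2 / ω θ := by
    rw [← intervalIntegral.integral_const_mul]
    apply intervalIntegral.integral_congr
    intro θ _
    simp only [hgder]
    rw [hτs]
    have := (hpos θ).ne'
    field_simp
  rw [h1, h2, div_le_iff₀ hΛ0] at hmain
  calc (∫ θ in (0 : ℝ)..(2 * Real.pi), (f θ - m) ^ 2 * ω θ) ≤
      Λ * (∫ θ in (0 : ℝ)..(2 * Real.pi), deriv f θ ^ 2 / ω θ) * Λ := hmain
    _ = Λ ^ 2 * ∫ θ in (0 : ℝ)..(2 * Real.pi), deriv f θ ^ 2 / ω θ := by ring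

end W87

theorem ww (h : WiStmt) : WwStmt := W87.ww h

end Pool.Agent.H74.CV
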