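import Pool.Agent.H74.CV.Asm
import Pool.Agent.H74.CV.Inj
import Pool.Agent.H74.CV.Pol
import Pool.Agent.H74.CV.Ww
import Pool.Agent.H74.CV.Trc
import Pool.Agent.H74.CV.Cfx
import Pool.Agent.H74.CV.Upp
import Pool.Agent.H74.CV.Wdt
import Pool.Agent.H74.SX.Wi

set_option autoImplicit false

/-!
# [H74 CV Fin] the facts of the hand-in (helper74)
-/

namespace Pool.Agent.H74.CV

open MeasureTheory Set Filter Topology Pool.Agent.H74.SX

theorem fin {p : ℝ → ℝ} (hp : Sp p) :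
    (((Real.sqrt 5 - 1) * Real.pi / Lp p : ℝ) : EReal) ≤ mx p (Ex p) (ad p) 2 ∧
      (Lp p * volume.real (Dm p) < (Real.sqrt 5 - 1) * Real.pi *
          ab p (fun z => (z.re - ab p (fun z => z.re) / Lp p) ^ 2) →
        mx p (Dm p) (fun u => ContDiff ℝ 1 u) 2 < (((Real.sqrt 5 - 1) * Real.pi / Lp p : ℝ) : EReal)) ∧
      (6 * Lp p * volume.real (Dm p) < (Real.sqrt 5 - 1) * Real.pi * (p 0 + p Real.pi) ^ 3 →
        mx p (Dm p) (fun u => ContDiff ℝ 1 u) 2 < (((Real.sqrt 5 - 1) * Real.pi / Lp p : ℝ) : EReal)) :=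
  ⟨lower (trc (ww wi)) (pol inj) cfx hp, upper upp hp, upper3 upp wdt hp⟩

end Pool.Agent.H74.CV
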