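import Pool.Agent.H74.SX.Fr

set_option autoImplicit false

/-!
# [H74 CV Fr] convex domains with a `C²` support function (MP_bddfa3_an): statements of the modules (helper74)

`p` is the support function, `ϱ = p + p'' ≥ 0` the radius of curvature (corners are allowed: `ϱ = 0` on an interval), `γ θ = (p + i p') e^{iθ}` the
boundary point with normal `e^{iθ}`, `γ' = i ϱ e^{iθ}`, `Φ (t, θ) = γ θ + t e^{iθ}` the parallel curves, `Φ_t = e^{iθ}`, `Φ_θ = i (ϱ + t) e^{iθ}`.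
-/

namespace Pool.Agent.H74.CV

open MeasureTheory Set Filter Topology Pool.Agent.H74.SX

structure Sp (p : ℝ → ℝ) : Prop where
  c2 : ContDiff ℝ 2 p
  per : Function.Periodic p (2 * Real.pi)
  nn : ∀ θ, 0 ≤ p θ + deriv (deriv p) θ
  pos : 0 < ∫ θ in (0 : ℝ)..(2 * Real.pi), p θ

/-- `e^{iθ}` -/
noncomputable def ee (θ : ℝ) : ℂ := Complex.exp (θ * Complex.I)

/-- radius of curvature, boundary point, parallel curves -/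
noncomputable def rr (p : ℝ → ℝ) (θ : ℝ) : ℝ := p θ + deriv (deriv p) θ
noncomputable def ga (p : ℝ → ℝ) (θ : ℝ) : ℂ := (p θ + deriv p θ * Complex.I) * ee θ
noncomputable def Ph (p : ℝ → ℝ) (t θ : ℝ) : ℂ := ga p θ + t * ee θ

/-- domain, exterior, perimeter, boundary integral -/
def Dm (p : ℝ → ℝ) : Set ℂ := {z | ∀ θ : ℝ, ((starRingEnd ℂ) (ee θ) * z).re < p θ}
def Ex (p : ℝ → ℝ) : Set ℂ := {z | ∃ θ : ℝ, p θ < ((starRingEnd ℂ) (ee θ) * z).re}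
noncomputable def Lp (p : ℝ → ℝ) : ℝ := ∫ θ in (0 : ℝ)..(2 * Real.pi), p θ
noncomputable def ab (p : ℝ → ℝ) (f : ℂ → ℝ) : ℝ := ∫ θ in (0 : ℝ)..(2 * Real.pi), f (ga p θ) * rr p θ

def ad (p : ℝ → ℝ) (u : ℂ → ℝ) : Prop :=
  ContDiff ℝ 1 u ∧ (∃ C : ℝ, ∀ z, |u z| ≤ C) ∧ IntegrableOn (fun z => ‖fderiv ℝ u z‖ ^ 2) (Ex p)

noncomputable def mx (p : ℝ → ℝ) (S : Set ℂ) (Adm : (ℂ → ℝ) → Prop) (k : ℕ) : EReal :=
  sInf {x : EReal | ∃ R : ℝ, x = R ∧ ∃ u : Fin k → ℂ → ℝ, (∀ i, Adm (u i)) ∧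
    (∀ c : Fin k → ℝ, c ≠ 0 → 0 < ab p (fun z => (∑ i, c i * u i z) ^ 2)) ∧
    ∀ c : Fin k → ℝ, dir S (fun z => ∑ i, c i * u i z) ≤ R * ab p (fun z => (∑ i, c i * u i z) ^ 2)}

/-- energy on the parallel curve at distance `t` -/
noncomputable def EE (p : ℝ → ℝ) (u : ℂ → ℝ) (t : ℝ) : ℝ :=
  ∫ θ in (0 : ℝ)..(2 * Real.pi), (rr p θ + t) * ‖fderiv ℝ u (Ph p t θ)‖ ^ 2

/-- `Inj`. Proof: `G φ = p φ - Re (e^{-iφ} γ θ)` has `G + G'' = ϱ`, `G θ = G' θ = 0`, so `G φ = ∫_θ^φ ϱ s sin (φ - s) ds ≥ 0` for `|φ - θ| ≤ π`, and for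
all `φ` by periodicity (support inequality). So `Re (e^{-iφ} Φ (t, θ)) - p φ ≤ t cos (φ - θ) ≤ t`, with equality in `t` only if `φ = θ` mod `2π`, and it is `t`
for `φ = θ`: `t` and `θ` are determined by the point. -/
def InjStmt : Prop := ∀ p : ℝ → ℝ, Sp p →
  (∀ t θ t' θ' : ℝ, 0 < t → 0 < t' → θ ∈ Ico 0 (2 * Real.pi) → θ' ∈ Ico 0 (2 * Real.pi) → Ph p t θ = Ph p t' θ' →
    t = t' ∧ θ = θ') ∧ ∀ t θ : ℝ, 0 < t → Ph p t θ ∈ Ex p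

/-- `Pol` (uses `Inj`). Proof: `integral_image_eq_integral_abs_det_fderiv_smul` for `Φ` on `(0, ∞) × (0, 2π)` (as a map on `ℝ × ℝ` or on `ℂ`), determinant
`ϱ + t` (up to sign), image in `Ex p`; Fubini. -/
def PolStmt : Prop := ∀ p : ℝ → ℝ, Sp p → ∀ u : ℂ → ℝ, ad p u →
  IntegrableOn (fun t => EE p u t) (Ioi 0) ∧ ∫ t in Ioi (0 : ℝ), EE p u t ≤ dir (Ex p) u

/-- `Ww` (uses `Wi`): weighted inequality of Wirtinger. Proof: `s θ = (∫_0^θ ω) / Λ` is a `C¹` bijection of the line with `s (θ + 2π) = s θ + 2π`;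
apply `Wi` to `f ∘ s⁻¹` and substitute. -/
def WwStmt : Prop := ∀ ω f : ℝ → ℝ, Continuous ω → (∀ θ, 0 < ω θ) → Function.Periodic ω (2 * Real.pi) → ContDiff ℝ 1 f →
  Function.Periodic f (2 * Real.pi) → ∀ Λ m : ℝ, Λ = (∫ θ in (0 : ℝ)..(2 * Real.pi), ω θ) / (2 * Real.pi) →
  m = (∫ θ in (0 : ℝ)..(2 * Real.pi), f θ * ω θ) / ∫ θ in (0 : ℝ)..(2 * Real.pi), ω θ →
  ∫ θ in (0 : ℝ)..(2 * Real.pi), (f θ - m) ^ 2 * ω θ ≤ Λ ^ 2 * ∫ θ in (0 : ℝ)..(2 * Real.pi), deriv f θ ^ 2 / ω θ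

/-- `Trc` (uses `Ww`). Proof: `U (t, θ) = u (Φ (t, θ))`, `ω = ϱ + t`, `ℓ = ℓ₀ + t`, `ℓ₀ = L / 2π`, `∫ ω = 2π ℓ`; `U_t = du (e^{iθ})`,
`U_θ = ω du (i e^{iθ})`, `EE = ∫ (U_t² ω + U_θ² / ω)`. `h t = ∫ (U - m)² ω = ∫ U² ω - (∫ U ω)² / (2π ℓ)`;
`h' = 2 ∫ (U - m) U_t ω + ∫ (U - m)² ≥ 2 ∫ (U - m) U_t ω` for `t > 0`. With `α² + α = 1`, `α = (√5 - 1)/2`, `K = ℓ₀ / α`, `w = ℓ₀ / ℓ`:
`- (w h)' ≤ (ℓ₀/ℓ²) h + w (λ h + ∫ U_t² ω / λ)` with `λ = w / K = α / ℓ`, and `h ≤ ℓ² ∫ U_θ² / ω` (`Ww`), so `- (w h)' ≤ K EE`. So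
`h 0 ≤ w T h T + K ∫_0^T EE`, and `w T h T ≤ ℓ₀ ℓ EE T` is small for some large `T`, otherwise `EE ≥ c / ℓ` is not integrable. At `t = 0` use continuity
(`ϱ` may vanish). -/
def TrcStmt : Prop := ∀ p : ℝ → ℝ, Sp p → ∀ u : ℂ → ℝ, ContDiff ℝ 1 u → IntegrableOn (fun t => EE p u t) (Ioi 0) →
  ab p (fun z => (u z - ab p u / Lp p) ^ 2) ≤ Lp p * (Real.sqrt 5 + 1) / (4 * Real.pi) * ∫ t in Ioi (0 : ℝ), EE p u t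

/-- `Cfx` (model `DD/CfeK`, helper3) -/
def CfxStmt : Prop := ∀ p : ℝ → ℝ, Sp p → ∀ K : ℝ, 0 < K →
  (∀ u : ℂ → ℝ, ad p u → ab p u = 0 → ab p (fun z => u z ^ 2) ≤ K * dir (Ex p) u) →
  ((1 / K : ℝ) : EReal) ≤ mx p (Ex p) (ad p) 2

/-- `Upp` (model `SX/Cfi`, helper4): test functions `1` and `z.re`; `Dm p` is bounded, `ab p 1 = Lp p` as `∫ p'' = 0` -/
def UppStmt : Prop := ∀ p : ℝ → ℝ, Sp p → ∀ D : ℝ, 0 < D →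
  D = ab p (fun z => (z.re - ab p (fun z => z.re) / Lp p) ^ 2) →
  mx p (Dm p) (fun u => ContDiff ℝ 1 u) 2 ≤ ((volume.real (Dm p) / D : ℝ) : EReal)

/-- `Wdt`: `(ga p θ).re` has derivative `- ϱ sin θ`; on `[0, π]` and on `[π, 2π]` substitute `x`: `∫ (x - m)² ds ≥ 2 ∫_{-p π}^{p 0} (x - m)² dx ≥ (p 0 + p π)³ / 6` -/
def WdtStmt : Prop := ∀ p : ℝ → ℝ, Sp p → ∀ m : ℝ,
  0 ≤ p 0 + p Real.pi ∧ (p 0 + p Real.pi) ^ 3 ≤ 6 * ab p (fun z => (z.re - m) ^ 2)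

end Pool.Agent.H74.CV
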