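import Mathlib

set_option autoImplicit false

/-!
# [H74 CV Ode] the differential inequality at the end of `Trc` (helper35)
-/

namespace Pool.Agent.H74.CV.Ode

open MeasureTheory Set Filter Topology

/-- an integrable nonnegative function is small at some large `T` against `1 / (ℓ₀ + T)` -/
theorem small (E : ℝ → ℝ) (ℓ₀ : ℝ) (hℓ : 0 < ℓ₀) (hint : IntegrableOn E (Ioi 0)) (δ : ℝ) (hδ : 0 < δ) :
    ∃ T : ℝ, 0 < T ∧ (ℓ₀ + T) * E T < δ := by
  by_contra hcon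
  push Not at hcon
  have h1 : ¬ IntegrableOn (fun t : ℝ => δ / (2 * t)) (Ioi ℓ₀) := by
    intro h
    have h2 : IntegrableOn (fun t : ℝ => t⁻¹) (Ioi ℓ₀) := by
      have h3 := h.const_mul (2 / δ)
      refine h3.congr ?_
      filter_upwards with t
      field_simp
    exact not_integrableOn_Ioi_inv h2
  refine h1 ?_
  refine Integrable.mono' (hint.mono_set (Ioi_subset_Ioi hℓ.le)) ?_ ?_
  · exact (measurable_const.div (measurable_const.mul measurable_id)).aestronglyMeasurable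
  · filter_upwards [ae_restrict_mem measurableSet_Ioi] with t ht
    have ht : ℓ₀ < t := ht
    have ht0 : 0 < t := hℓ.trans ht
    have h4 := hcon t ht0
    rw [Real.norm_of_nonneg (by positivity), div_le_iff₀ (by positivity)]
    have h5 : 0 < ℓ₀ + t := by linarith
    have h6 : 0 < E t := by
      by_contra h7
      push Not at h7
      nlinarith [mul_nonneg h5.le (neg_nonneg.2 h7)]
    nlinarith [mul_pos h6 (sub_pos.2 ht)]

theorem ode (h h' A B : ℝ → ℝ) (ℓ₀ : ℝ) (hℓ : 0 < ℓ₀) (hc : ContinuousOn h (Ici 0))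
    (hd : ∀ t, 0 < t → HasDerivAt h (h' t) t) (h0 : ∀ t, 0 ≤ t → 0 ≤ h t) (A0 : ∀ t, 0 < t → 0 ≤ A t)
    (B0 : ∀ t, 0 < t → 0 ≤ B t)
    (hA : ∀ t, 0 < t → ∀ l : ℝ, 0 < l → -h' t ≤ l * h t + A t / l)
    (hB : ∀ t, 0 < t → h t ≤ (ℓ₀ + t) ^ 2 * B t)
    (hint : IntegrableOn (fun t => A t + B t) (Ioi 0)) :
    h 0 ≤ ℓ₀ * (Real.sqrt 5 + 1) / 2 * ∫ t in Ioi (0 : ℝ), (A t + B t) := by
  set α : ℝ := (Real.sqrt 5 - 1) / 2 with hα
  have h5 : Real.sqrt 5 ^ 2 = 5 := Real.sq_sqrt (by norm_num)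
  have h5' : 2 < Real.sqrt 5 := by
    rw [show (2 : ℝ) = Real.sqrt 4 by rw [show (4 : ℝ) = 2 ^ 2 by norm_num, Real.sqrt_sq (by norm_num)]]
    exact Real.sqrt_lt_sqrt (by norm_num) (by norm_num)
  have hα0 : 0 < α := by rw [hα]; linarith
  have hα1 : α ^ 2 + α = 1 := by rw [hα]; nlinarith
  have hK : ℓ₀ * (Real.sqrt 5 + 1) / 2 = ℓ₀ * (1 + α) := by rw [hα]; ring
  rw [hK]
  set K : ℝ := ℓ₀ * (1 + α) with hKd
  have hK0 : 0 < K := by positivity
  have key : ∀ T : ℝ, 0 < T → h 0 ≤ ℓ₀ / (ℓ₀ + T) * h T + K * ∫ t in Ioi (0 : ℝ), (A t + B t) := by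
    intro T hT
    have i1 : IntegrableOn (fun t => K * (A t + B t)) (Icc 0 T) := by
      rw [integrableOn_Icc_iff_integrableOn_Ioc]
      exact (hint.mono_set Ioc_subset_Ioi_self).const_mul K
    have i2 := intervalIntegral.sub_le_integral_of_hasDeriv_right_of_le (a := 0) (b := T)
      (g := fun t => -(ℓ₀ / (ℓ₀ + t) * h t))
      (g' := fun t => -((-ℓ₀ / (ℓ₀ + t) ^ 2) * h t + ℓ₀ / (ℓ₀ + t) * h' t))
      (φ := fun t => K * (A t + B t)) hT.le ?_ ?_ i1 ?_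
    · have i3 : ∫ t in (0 : ℝ)..T, K * (A t + B t) ≤ K * ∫ t in Ioi (0 : ℝ), (A t + B t) := by
        rw [intervalIntegral.integral_const_mul]
        refine mul_le_mul_of_nonneg_left ?_ hK0.le
        rw [intervalIntegral.integral_of_le hT.le]
        refine setIntegral_mono_set hint ?_ (Ioc_subset_Ioi_self).eventuallyLE
        filter_upwards [ae_restrict_mem measurableSet_Ioi] with t ht
        exact add_nonneg (A0 t ht) (B0 t ht)
      have i4 : ℓ₀ / (ℓ₀ + 0) * h 0 = h 0 := by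
        rw [add_zero, div_self hℓ.ne', one_mul]
      rw [i4] at i2
      linarith
    · refine ContinuousOn.neg (ContinuousOn.mul ?_ (hc.mono Icc_subset_Ici_self))
      refine ContinuousOn.div continuousOn_const (continuousOn_const.add continuousOn_id) fun t ht => ?_
      have : 0 ≤ t := ht.1
      positivity
    · intro t ht
      have ht0 : 0 < t := ht.1
      have hne : ℓ₀ + t ≠ 0 := by positivity
      have d1 : HasDerivAt (fun t : ℝ => ℓ₀ / (ℓ₀ + t)) (-ℓ₀ / (ℓ₀ + t) ^ 2) t := by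
        have d2 : HasDerivAt (fun t : ℝ => ℓ₀ + t) 1 t := (hasDerivAt_id t).const_add ℓ₀
        have d3 := (hasDerivAt_const t ℓ₀).fun_div d2 hne
        rw [zero_mul, zero_sub, mul_one] at d3
        exact d3
      exact ((d1.mul (hd t ht0)).neg).hasDerivWithinAt
    · intro t ht
      have ht0 : 0 < t := ht.1
      have hp : 0 < ℓ₀ + t := by positivity
      have e1 := hA t ht0 (α / (ℓ₀ + t)) (by positivity)
      have e2 := hB t ht0
      have e3 : ℓ₀ / (ℓ₀ + t) * -h' t ≤ ℓ₀ / (ℓ₀ + t) * (α / (ℓ₀ + t) * h t + A t / (α / (ℓ₀ + t))) :=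
        mul_le_mul_of_nonneg_left e1 (by positivity)
      have e4 : ℓ₀ / (ℓ₀ + t) * (α / (ℓ₀ + t) * h t + A t / (α / (ℓ₀ + t))) =
          ℓ₀ * α / (ℓ₀ + t) ^ 2 * h t + ℓ₀ / α * A t := by
        field_simp
      have e5 : ℓ₀ / α = K := by
        rw [hKd, div_eq_iff hα0.ne']
        nlinarith
      have e6 : ℓ₀ / (ℓ₀ + t) ^ 2 * h t + ℓ₀ * α / (ℓ₀ + t) ^ 2 * h t ≤ K * B t := by
        have e7 : ℓ₀ / (ℓ₀ + t) ^ 2 * h t + ℓ₀ * α / (ℓ₀ + t) ^ 2 * h t = K / (ℓ₀ + t) ^ 2 * h t := by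
          rw [hKd]; ring
        rw [e7]
        calc K / (ℓ₀ + t) ^ 2 * h t ≤ K / (ℓ₀ + t) ^ 2 * ((ℓ₀ + t) ^ 2 * B t) :=
              mul_le_mul_of_nonneg_left e2 (by positivity)
          _ = K * B t := by field_simp
      have e8 : -((-ℓ₀ / (ℓ₀ + t) ^ 2) * h t + ℓ₀ / (ℓ₀ + t) * h' t) =
          ℓ₀ / (ℓ₀ + t) ^ 2 * h t + ℓ₀ / (ℓ₀ + t) * -h' t := by ring
      rw [e8]
      rw [e4, e5] at e3
      linarith
  refine le_of_forall_pos_le_add fun δ hδ => ?_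
  obtain ⟨T, hT, hs⟩ := small (fun t => A t + B t) ℓ₀ hℓ hint (δ / ℓ₀) (by positivity)
  have k1 := key T hT
  have hp : 0 < ℓ₀ + T := by positivity
  have k2 : ℓ₀ / (ℓ₀ + T) * h T ≤ δ := by
    have k3 : ℓ₀ / (ℓ₀ + T) * h T ≤ ℓ₀ / (ℓ₀ + T) * ((ℓ₀ + T) ^ 2 * (A T + B T)) := by
      refine mul_le_mul_of_nonneg_left ((hB T hT).trans ?_) (by positivity)
      exact mul_le_mul_of_nonneg_left (by linarith [A0 T hT]) (by positivity)
    have k4 : ℓ₀ / (ℓ₀ + T) * ((ℓ₀ + T) ^ 2 * (A T + B T)) = ℓ₀ * ((ℓ₀ + T) * (A T + B T)) := by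
      field_simp
    rw [k4] at k3
    refine k3.trans ?_
    have k5 := mul_le_mul_of_nonneg_left hs.le hℓ.le
    rwa [mul_div_cancel₀ _ hℓ.ne'] at k5
  linarith

end Pool.Agent.H74.CV.Ode
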