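import Pool.Agent.H74.CV.Fr

set_option autoImplicit false

/-!
# [H74 CV Ric] the last step of the trace inequality (helper22)
-/

namespace Pool.Agent.H74.CV

open MeasureTheory Set Filter Topology Pool.Agent.H74.SX

theorem ric (l K : ℝ) (hl : 0 < l) (hK : 0 ≤ K) (h g EE : ℝ → ℝ) (hE0 : ∀ t, 0 < t → 0 ≤ EE t)
    (hEi : IntegrableOn EE (Ioi 0)) (h0 : Tendsto h (nhdsWithin 0 (Ioi 0)) (nhds (h 0)))
    (h1 : ∀ t, 0 < t → h t ≤ (l + t) ^ 2 * EE t)
    (hd : ∀ t, 0 < t → HasDerivAt (fun t => l / (l + t) * h t) (g t) t) (hg : ∀ t, 0 < t → -g t ≤ K * EE t)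
    (hgc : ContinuousOn g (Ioi 0)) : h 0 ≤ K * ∫ t in Ioi (0 : ℝ), EE t := by
  have key : ∀ a : ℝ, 0 < a → l / (l + a) * h a ≤ K * ∫ t in Ioi (0 : ℝ), EE t := by
    intro a ha
    refine le_of_forall_pos_le_add fun ε hε => ?_
    obtain ⟨T, hTa, hT⟩ : ∃ T : ℝ, a < T ∧ l * (l + T) * EE T < ε := by
      by_contra hcon
      push Not at hcon
      have hb : ∀ t ∈ Ioi (max a l), ‖t⁻¹‖ ≤ (2 * l / ε) * EE t := by
        intro t ht
        have hta : a < t := lt_of_le_of_lt (le_max_left _ _) ht
        have htl : l < t := lt_of_le_of_lt (le_max_right _ _) ht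
        have h5 := hcon t hta
        have ht0 : 0 < t := ha.trans hta
        have hE := hE0 t ht0
        rw [Real.norm_of_nonneg (by positivity)]
        have h6 : ε ≤ 2 * l * t * EE t := by
          refine h5.trans ?_
          have : l * (l + t) ≤ 2 * l * t := by nlinarith
          exact mul_le_mul_of_nonneg_right this hE
        calc t⁻¹ = ε / (ε * t) := by field_simp
          _ ≤ (2 * l * t * EE t) / (ε * t) := by
            apply div_le_div_of_nonneg_right h6 (by positivity)
          _ = 2 * l / ε * EE t := by field_simp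
      have hint : IntegrableOn (fun t => (2 * l / ε) * EE t) (Ioi (max a l)) :=
        (hEi.mono_set (Ioi_subset_Ioi (le_max_of_le_left ha.le))).const_mul _
      exact not_integrableOn_Ioi_inv (Integrable.mono' hint measurable_inv.aestronglyMeasurable
        ((ae_restrict_iff' measurableSet_Ioi).2 (Eventually.of_forall hb)))
    have hT0 : 0 < T := ha.trans hTa
    have hsub : uIcc a T ⊆ Ioi (0 : ℝ) := by
      rw [uIcc_of_le hTa.le]
      intro x hx
      exact lt_of_lt_of_le ha hx.1
    have hgi : IntervalIntegrable g volume a T := (hgc.mono hsub).intervalIntegrable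
    have hEii : IntervalIntegrable EE volume a T := by
      rw [intervalIntegrable_iff_integrableOn_Ioc_of_le hTa.le]
      exact hEi.mono_set fun x hx => lt_trans ha hx.1
    have hft : ∫ t in a..T, g t = l / (l + T) * h T - l / (l + a) * h a :=
      intervalIntegral.integral_eq_sub_of_hasDerivAt (fun x hx => hd x (hsub hx)) hgi
    have hge : ∫ t in a..T, -g t ≤ ∫ t in a..T, K * EE t := by
      refine intervalIntegral.integral_mono_on hTa.le hgi.neg (hEii.const_mul K) fun x hx => ?_
      exact hg x (lt_of_lt_of_le ha hx.1)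
    rw [intervalIntegral.integral_neg, intervalIntegral.integral_const_mul, hft] at hge
    have hEa : ∫ t in a..T, EE t ≤ ∫ t in Ioi (0 : ℝ), EE t := by
      rw [intervalIntegral.integral_of_le hTa.le]
      refine setIntegral_mono_set hEi ?_ (Eventually.of_forall fun x hx => lt_trans ha hx.1)
      exact (ae_restrict_iff' measurableSet_Ioi).2 (Eventually.of_forall fun x hx => hE0 x hx)
    have hW : l / (l + T) * h T ≤ ε := by
      have h5 : l / (l + T) * h T ≤ l / (l + T) * ((l + T) ^ 2 * EE T) :=
        mul_le_mul_of_nonneg_left (h1 T hT0) (by positivity)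
      have h6 : l / (l + T) * ((l + T) ^ 2 * EE T) = l * (l + T) * EE T := by
        have : l + T ≠ 0 := by positivity
        field_simp
      rw [h6] at h5
      exact h5.trans hT.le
    have hKE := mul_le_mul_of_nonneg_left hEa hK
    linarith
  have hlim : Tendsto (fun a : ℝ => l / (l + a) * h a) (nhdsWithin 0 (Ioi 0)) (nhds (l / (l + 0) * h 0)) := by
    refine Tendsto.mul ?_ h0
    have hc : ContinuousAt (fun a : ℝ => l / (l + a)) 0 := by
      refine continuousAt_const.div (continuousAt_const.add continuousAt_id) ?_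
      simp only [id, add_zero]
      exact hl.ne'
    exact hc.tendsto.mono_left nhdsWithin_le_nhds
  rw [add_zero, div_self hl.ne', one_mul] at hlim
  exact le_of_tendsto hlim (eventually_nhdsWithin_of_forall fun a ha => key a ha)

end Pool.Agent.H74.CV
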