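import Pool.Agent.H74.CV.Ric

set_option autoImplicit false

/-!
# [H74 CV Ric2] the real variable end of the trace inequality with the constant (helper84, for Trc)
-/

namespace Pool.Agent.H74.CV.Ric

open MeasureTheory Set Filter Topology

/-- `X = ∫ U_t² ω`, `Y = ∫ U_θ² / ω`, `e = X + Y`, `h = ∫ (U - m)² ω`; `h2` is Cauchy-Schwarz in the form
`2 ∫ (U - m) U_t ω ≥ - (λ h + X / λ)` -/
theorem ric2 {l₀ : ℝ} (hl : 0 < l₀) {h h' e X Y : ℝ → ℝ} (h0 : ∀ t, 0 ≤ t → 0 ≤ h t) (hc : ContinuousOn h (Ici 0))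
    (hd : ∀ t, 0 < t → HasDerivAt h (h' t) t) (he : IntegrableOn e (Ioi 0))
    (heq : ∀ t, 0 < t → e t = X t + Y t) (hX : ∀ t, 0 < t → 0 ≤ X t) (hY : ∀ t, 0 < t → 0 ≤ Y t)
    (h1 : ∀ t, 0 < t → h t ≤ (l₀ + t) ^ 2 * Y t)
    (h2 : ∀ t, 0 < t → ∀ lam : ℝ, 0 < lam → -h' t ≤ lam * h t + X t / lam) :
    h 0 ≤ l₀ * (Real.sqrt 5 + 1) / 2 * ∫ t in Ioi (0 : ℝ), e t := by
  have h5 : Real.sqrt 5 ^ 2 = 5 := Real.sq_sqrt (by norm_num)
  have h51 : 1 < Real.sqrt 5 := by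
    rw [show (1 : ℝ) = Real.sqrt 1 by rw [Real.sqrt_one]]
    exact Real.sqrt_lt_sqrt (by norm_num) (by norm_num)
  obtain ⟨α, hα⟩ : ∃ α, α = (Real.sqrt 5 - 1) / 2 := ⟨_, rfl⟩
  have hα0 : 0 < α := by
    rw [hα]
    linarith
  have hα1 : α * (1 + α) = 1 := by
    rw [hα]
    linear_combination (1 / 4) * h5
  have hK : l₀ * (Real.sqrt 5 + 1) / 2 = l₀ / α := by
    rw [eq_div_iff hα0.ne', hα]
    linear_combination (l₀ / 4) * h5
  rw [hK]
  refine ric hl (by positivity) (h := fun t => h t) (h' := h') (e := e) h0 hc hd he (fun t ht => ?_) (fun t ht => ?_)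
    (fun t ht => ?_)
  · rw [heq t ht]
    exact add_nonneg (hX t ht) (hY t ht)
  · refine (h1 t ht).trans (mul_le_mul_of_nonneg_left ?_ (sq_nonneg _))
    rw [heq t ht]
    have := hX t ht
    linarith
  · have hlt : 0 < l₀ + t := by linarith
    have h3 := h2 t ht (α / (l₀ + t)) (by positivity)
    have h4 := mul_le_mul_of_nonneg_left h3 (show 0 ≤ l₀ / (l₀ + t) by positivity)
    have e1 : l₀ / (l₀ + t) * (α / (l₀ + t) * h t + X t / (α / (l₀ + t))) =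
        l₀ * α / (l₀ + t) ^ 2 * h t + l₀ / α * X t := by
      field_simp
    rw [e1] at h4
    have h6 : l₀ / (l₀ + t) ^ 2 * h t + l₀ * α / (l₀ + t) ^ 2 * h t = l₀ * (1 + α) / (l₀ + t) ^ 2 * h t := by
      ring
    have h7 : l₀ * (1 + α) / (l₀ + t) ^ 2 * h t ≤ l₀ * (1 + α) / (l₀ + t) ^ 2 * ((l₀ + t) ^ 2 * Y t) :=
      mul_le_mul_of_nonneg_left (h1 t ht) (by positivity)
    have h8 : l₀ * (1 + α) / (l₀ + t) ^ 2 * ((l₀ + t) ^ 2 * Y t) = l₀ * (1 + α) * Y t := by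
      field_simp
    have h9 : l₀ * (1 + α) = l₀ / α := by
      rw [eq_div_iff hα0.ne']
      linear_combination l₀ * hα1
    rw [heq t ht, mul_add]
    rw [h9] at h6 h7 h8
    have h10 : l₀ / (l₀ + t) ^ 2 * h t - l₀ / (l₀ + t) * h' t =
        l₀ / (l₀ + t) ^ 2 * h t + l₀ / (l₀ + t) * (-h' t) := by ring
    rw [h10]
    linarith

end Pool.Agent.H74.CV.Ric
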