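import Mathlib

set_option autoImplicit false

/-!
# [H74 CV TrcA] the pointwise inequality in `Trc` (helper88)
-/

namespace Pool.Agent.H74.CV

open MeasureTheory Set Filter Topology

/-- the differential inequality from Cauchy-Schwarz and the weighted inequality of Wirtinger -/
theorem alg (l t h d I1 I2 A B : ℝ) (hl : 0 < l) (ht : 0 < t) (h0 : 0 ≤ h) (hA : 0 ≤ A) (hd : d = 2 * I1 + I2)
    (hI2 : 0 ≤ I2) (hCS : I1 ^ 2 ≤ h * A) (hW : h ≤ (l + t) ^ 2 * B) :
    l / (l + t) ^ 2 * h - l / (l + t) * d ≤ l * (Real.sqrt 5 + 1) / 2 * (A + B) := by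
  have hs : Real.sqrt 5 * Real.sqrt 5 = 5 := Real.mul_self_sqrt (by norm_num)
  have hs2 : 2 < Real.sqrt 5 := by
    rw [show (2:ℝ) = Real.sqrt 4 by
      rw [show (4:ℝ) = 2 * 2 by norm_num, Real.sqrt_mul_self (by norm_num)]]
    exact Real.sqrt_lt_sqrt (by norm_num) (by norm_num)
  obtain ⟨s, hsdef⟩ : ∃ s, s = Real.sqrt 5 := ⟨_, rfl⟩
  rw [← hsdef] at hs hs2 ⊢
  obtain ⟨r, hr⟩ : ∃ r, r = l + t := ⟨_, rfl⟩
  rw [← hr] at hW ⊢
  have hr0 : 0 < r := by linarith
  obtain ⟨a, ha⟩ : ∃ a, a = (s - 1) / 2 := ⟨_, rfl⟩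
  have ha0 : 0 < a := by linarith
  have haa : a * (a + 1) = 1 := by
    rw [ha]
    linarith
  have hinv : (s + 1) / 2 = a + 1 := by
    rw [ha]
    ring
  have h1 : -(2 * I1) ≤ a / r * h + r * (a + 1) * A := by
    have h2 : (2 * I1) ^ 2 ≤ (a / r * h + r * (a + 1) * A) ^ 2 := by
      have h3 : (a / r * h + r * (a + 1) * A) ^ 2 =
          (a / r * h - r * (a + 1) * A) ^ 2 + 4 * (a * (a + 1)) * (h * A) := by
        field_simp
        ring
      rw [h3, haa]
      nlinarith [sq_nonneg (a / r * h - r * (a + 1) * A)]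
    have h4 : 0 ≤ a / r * h + r * (a + 1) * A := by positivity
    have h5 := abs_le_of_sq_le_sq h2 h4
    linarith [neg_abs_le (2 * I1)]
  have h6 : -(l / r * d) ≤ l / r * (a / r * h + r * (a + 1) * A) := by
    rw [← mul_neg]
    refine mul_le_mul_of_nonneg_left ?_ (by positivity)
    rw [hd]
    linarith
  have h7 : l / r ^ 2 * h + l / r * (a / r * h + r * (a + 1) * A) = l * (a + 1) * (h / r ^ 2) + l * (a + 1) * A := by
    field_simp
    ring
  have h8 : h / r ^ 2 ≤ B := by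
    rw [div_le_iff₀ (by positivity)]
    linarith
  have h9 : l * (a + 1) * (h / r ^ 2) ≤ l * (a + 1) * B := mul_le_mul_of_nonneg_left h8 (by positivity)
  have h10 : l * (s + 1) / 2 * (A + B) = l * (a + 1) * B + l * (a + 1) * A := by
    rw [← hinv]
    ring
  linarith

end Pool.Agent.H74.CV
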