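import Mathlib

set_option autoImplicit false

/-!
# [H74 CV TrcC] the Cauchy-Schwarz inequality with a weight (helper88)
-/

namespace Pool.Agent.H74.CV

open MeasureTheory Set Filter Topology

theorem csw (a b : ℝ) (hab : a ≤ b) (f g w : ℝ → ℝ) (hf : Continuous f) (hg : Continuous g) (hw : Continuous w)
    (hw0 : ∀ x, 0 ≤ w x) :
    (∫ x in a..b, f x * g x * w x) ^ 2 ≤ (∫ x in a..b, f x ^ 2 * w x) * ∫ x in a..b, g x ^ 2 * w x := by
  have h1 : ∀ y : ℝ, 0 ≤ (∫ x in a..b, f x ^ 2 * w x) * (y * y) + (2 * ∫ x in a..b, f x * g x * w x) * y +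
      ∫ x in a..b, g x ^ 2 * w x := by
    intro y
    have h2 : (∫ x in a..b, f x ^ 2 * w x) * (y * y) + (2 * ∫ x in a..b, f x * g x * w x) * y +
        ∫ x in a..b, g x ^ 2 * w x = ∫ x in a..b, (f x * y + g x) ^ 2 * w x := by
      have e1 : ∀ x, (f x * y + g x) ^ 2 * w x = (f x ^ 2 * w x) * (y * y) + (f x * g x * w x) * (2 * y) +
          g x ^ 2 * w x := fun x => by ring
      simp only [e1]
      rw [intervalIntegral.integral_add, intervalIntegral.integral_add, intervalIntegral.integral_mul_const,
        intervalIntegral.integral_mul_const]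
      · ring
      all_goals
        apply Continuous.intervalIntegrable
        fun_prop
    rw [h2]
    exact intervalIntegral.integral_nonneg hab fun x _ => mul_nonneg (sq_nonneg _) (hw0 x)
  have h3 := discrim_le_zero h1
  unfold discrim at h3
  nlinarith

end Pool.Agent.H74.CV
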