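import Pool.Agent.H74.CV.Fr

set_option autoImplicit false

/-!
# [H74 CV TrcO] the Riccati inequality of `Trc` as a statement on functions of one variable (helper27)
-/

namespace Pool.Agent.H74.CV.TrcO

open MeasureTheory Set Filter Topology

theorem exT {E : ℝ → ℝ} (hE : IntegrableOn E (Ioi 0)) {l c : ℝ} (hl : 0 < l) (hc : 0 < c) :
    ∃ T : ℝ, 0 < T ∧ (l + T) * E T < c := by
  by_contra hcon
  push Not at hcon
  have h1 : IntegrableOn (fun t : ℝ => t⁻¹) (Ioi l) := by
    refine Integrable.mono' ((hE.mono_set (Ioi_subset_Ioi hl.le)).const_mul (2 / c))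
      (measurable_inv.aestronglyMeasurable) ?_
    refine (ae_restrict_iff' measurableSet_Ioi).2 (Eventually.of_forall fun t ht => ?_)
    have ht' : l < t := ht
    have ht0 : 0 < t := hl.trans ht'
    have h2 := hcon t ht0
    rw [Real.norm_eq_abs, abs_of_pos (inv_pos.2 ht0)]
    have h4 : 0 ≤ E t := by
      by_contra h
      push Not at h
      have : (l + t) * E t < 0 := mul_neg_of_pos_of_neg (by linarith) h
      linarith
    have h3 : c ≤ 2 * t * E t := by
      refine h2.trans (mul_le_mul_of_nonneg_right ?_ h4)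
      linarith
    rw [inv_eq_one_div, div_le_iff₀ ht0, div_mul_eq_mul_div, div_mul_eq_mul_div, le_div_iff₀ hc]
    linarith
  exact not_integrableOn_Ioi_inv h1

theorem ode (l α : ℝ) (hl : 0 < l) (hα : 0 < α) (hαα : α ^ 2 + α = 1) (h h' A B : ℝ → ℝ)
    (hc : ContinuousOn h (Ici 0)) (hd : ∀ t, 0 < t → HasDerivAt h (h' t) t)
    (hA : ∀ t, 0 < t → 0 ≤ A t) (hB : ∀ t, 0 < t → 0 ≤ B t) (hW : ∀ t, 0 < t → h t ≤ (l + t) ^ 2 * B t)
    (hR : ∀ t, 0 < t → ∀ r, 0 < r → -h' t ≤ r * h t + A t / r)
    (hE : IntegrableOn (fun t => A t + B t) (Ioi 0)) :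
    h 0 ≤ l / α * ∫ t in Ioi (0 : ℝ), (A t + B t) := by
  have hK : 0 < l / α := div_pos hl hα
  have hαi : 1 + α = 1 / α := by
    rw [eq_div_iff hα.ne']
    linarith [hαα, (by ring : (1 + α) * α = α ^ 2 + α)]
  refine le_of_forall_pos_le_add fun ε hε => ?_
  obtain ⟨T, hT, hTs⟩ := exT hE hl (div_pos hε hl)
  have hE0 : ∀ t, 0 < t → 0 ≤ A t + B t := fun t ht => add_nonneg (hA t ht) (hB t ht)
  have hIcc : IntegrableOn (fun t => l / α * (A t + B t)) (Icc 0 T) := by
    rw [integrableOn_Icc_iff_integrableOn_Ioc]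
    exact (hE.mono_set Ioc_subset_Ioi_self).const_mul _
  have hwd : ∀ t, 0 < t → HasDerivAt (fun t => -(l / (l + t) * h t))
      (-(-(l / (l + t) ^ 2) * h t + l / (l + t) * h' t)) t := by
    intro t ht
    have hlt : l + t ≠ 0 := by linarith
    have h1 : HasDerivAt (fun t => l / (l + t)) (-(l / (l + t) ^ 2)) t := by
      have h2 : HasDerivAt (fun t : ℝ => l + t) 1 t := (hasDerivAt_id t).const_add l
      have h3 := (hasDerivAt_const t l).div h2 hlt
      have h4 : (0 * (l + t) - l * 1) / (l + t) ^ 2 = -(l / (l + t) ^ 2) := by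
        rw [zero_mul, zero_sub, mul_one, neg_div]
      rw [← h4]
      exact h3
    exact (h1.mul (hd t ht)).neg
  have hcw : ContinuousOn (fun t => -(l / (l + t) * h t)) (Icc 0 T) := by
    refine ((ContinuousOn.div continuousOn_const (continuousOn_const.add continuousOn_id) fun t ht => ?_).mul
      (hc.mono Icc_subset_Ici_self)).neg
    have h9 : 0 ≤ t := ht.1
    have h10 : l + t ≠ 0 := by linarith
    exact h10
  have key := intervalIntegral.sub_le_integral_of_hasDeriv_right_of_le hT.le hcw
    (fun t ht => (hwd t ht.1).hasDerivWithinAt) hIcc fun t ht => by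
      have ht0 : 0 < t := ht.1
      have hlt : 0 < l + t := by linarith
      have h1 := hR t ht0 (α / (l + t)) (div_pos hα hlt)
      have h2 := hW t ht0
      have h3 : l / (l + t) * -h' t ≤ l / (l + t) * (α / (l + t) * h t + A t / (α / (l + t))) :=
        mul_le_mul_of_nonneg_left h1 (div_pos hl hlt).le
      have h4 : l / (l + t) * (α / (l + t) * h t + A t / (α / (l + t))) =
          l * α / (l + t) ^ 2 * h t + l / α * A t := by
        field_simp
      have h5 : l / (l + t) ^ 2 * h t + l * α / (l + t) ^ 2 * h t = l / α * (h t / (l + t) ^ 2) := by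
        have : l / (l + t) ^ 2 * h t + l * α / (l + t) ^ 2 * h t = l * (1 + α) * (h t / (l + t) ^ 2) := by ring
        rw [this, hαi]
        ring
      have h6 : h t / (l + t) ^ 2 ≤ B t := by
        rw [div_le_iff₀ (by positivity)]
        linarith
      have h7 : l / α * (h t / (l + t) ^ 2) ≤ l / α * B t := mul_le_mul_of_nonneg_left h6 hK.le
      linarith
  have hint : ∫ t in (0 : ℝ)..T, l / α * (A t + B t) ≤ l / α * ∫ t in Ioi (0 : ℝ), (A t + B t) := by
    rw [intervalIntegral.integral_const_mul, intervalIntegral.integral_of_le hT.le]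
    refine mul_le_mul_of_nonneg_left ?_ hK.le
    refine setIntegral_mono_set hE ?_ (LE.le.eventuallyLE Ioc_subset_Ioi_self)
    exact (ae_restrict_iff' measurableSet_Ioi).2 (Eventually.of_forall fun t ht => hE0 t ht)
  have hlast : l / (l + T) * h T ≤ ε := by
    have hlT : 0 < l + T := by linarith
    have h2 := hW T hT
    have h3 : l / (l + T) * h T ≤ l / (l + T) * ((l + T) ^ 2 * B T) := mul_le_mul_of_nonneg_left h2 (div_pos hl hlT).le
    have h4 : l / (l + T) * ((l + T) ^ 2 * B T) = l * ((l + T) * B T) := by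
      field_simp
    have h5 : l * ((l + T) * B T) ≤ l * ((l + T) * (A T + B T)) := by
      refine mul_le_mul_of_nonneg_left (mul_le_mul_of_nonneg_left ?_ hlT.le) hl.le
      linarith [hA T hT]
    have h6 : l * ((l + T) * (A T + B T)) ≤ l * (ε / l) := mul_le_mul_of_nonneg_left hTs.le hl.le
    have h7 : l * (ε / l) = ε := by
      field_simp
    linarith
  have h00 : l / (l + 0) * h 0 = h 0 := by
    rw [add_zero, div_self hl.ne', one_mul]
  simp only [h00] at key
  linarith

end Pool.Agent.H74.CV.TrcO
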