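import Mathlib

set_option autoImplicit false

/-!
# [H74 CV TrcR] the last step of `Trc` as a statement on real functions (helper88)
-/

namespace Pool.Agent.H74.CV

open MeasureTheory Set Filter Topology

/-- an integrable function on `(0, ∞)` is below `ε / (l + T)` for some large `T` -/
theorem exists_small (l : ℝ) (hl : 0 < l) (E : ℝ → ℝ) (hE : IntegrableOn E (Ioi 0)) (ε : ℝ) (hε : 0 < ε) (T0 : ℝ)
    (hT0 : 0 < T0) : ∃ T, T0 < T ∧ E T < ε / (l + T) := by
  by_contra hcon
  push Not at hcon
  have h1 : IntegrableOn (fun t : ℝ => ε / (l + t)) (Ioi T0) := by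
    have h2 : IntegrableOn E (Ioi T0) := hE.mono_set (Ioi_subset_Ioi hT0.le)
    refine Integrable.mono' h2 ?_ ?_
    · refine (Measurable.aestronglyMeasurable ?_)
      fun_prop
    · refine (ae_restrict_iff' measurableSet_Ioi).2 (Eventually.of_forall fun t ht => ?_)
      have h3 : 0 < l + t := by
        have := mem_Ioi.1 ht
        linarith
      rw [Real.norm_of_nonneg (by positivity)]
      exact hcon t ht
  have h4 : IntegrableOn (fun t : ℝ => t⁻¹) (Ioi T0) := by
    have h6 : IntegrableOn (fun t : ℝ => (ε⁻¹ * (l / T0 + 1)) * (ε / (l + t))) (Ioi T0) := h1.const_mul _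
    refine Integrable.mono' h6 ?_ ?_
    · refine (Measurable.aestronglyMeasurable ?_)
      fun_prop
    · refine (ae_restrict_iff' measurableSet_Ioi).2 (Eventually.of_forall fun t ht => ?_)
      have h3 : T0 < t := mem_Ioi.1 ht
      have h7 : 0 < t := hT0.trans h3
      rw [Real.norm_of_nonneg (by positivity)]
      have h8 : ε⁻¹ * (l / T0 + 1) * (ε / (l + t)) = (l / T0 + 1) / (l + t) := by
        field_simp
      rw [h8, inv_eq_one_div, div_le_div_iff₀ h7 (by positivity)]
      have h9 : l ≤ l / T0 * t := by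
        rw [div_mul_eq_mul_div, le_div_iff₀ hT0]
        exact mul_le_mul_of_nonneg_left h3.le hl.le
      linarith
  exact not_integrableOn_Ioi_inv h4

theorem ric (l K : ℝ) (hl : 0 < l) (hK : 0 < K) (h E : ℝ → ℝ) (hc : ContinuousOn h (Set.Ici 0))
    (hE : IntegrableOn E (Ioi 0)) (hE0 : ∀ t > 0, 0 ≤ E t)
    (hd : ∀ t > 0, ∃ d, HasDerivAt h d t ∧ l / (l + t) ^ 2 * h t - l / (l + t) * d ≤ K * E t)
    (hh : ∀ t > 0, h t ≤ (l + t) ^ 2 * E t) : h 0 ≤ K * ∫ t in Ioi (0:ℝ), E t := by
  have key : ∀ T > 0, h 0 - l / (l + T) * h T ≤ K * ∫ t in Ioi (0:ℝ), E t := by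
    intro T hT
    choose! d hd1 hd2 using hd
    have hg : ∀ t ∈ Ioo 0 T, HasDerivWithinAt (fun t => - (l / (l + t) * h t))
        (l / (l + t) ^ 2 * h t - l / (l + t) * d t) (Ioi t) t := by
      intro t ht
      have ht0 : 0 < t := ht.1
      have h1 : HasDerivAt (fun t : ℝ => l / (l + t)) (-(l / (l + t) ^ 2)) t := by
        have h2 : HasDerivAt (fun t : ℝ => l + t) 1 t := (hasDerivAt_id t).const_add l
        have h3 := (hasDerivAt_const t l).div h2 (by positivity)
        refine h3.congr_deriv ?_
        ring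
      have h4 := ((h1.mul (hd1 t ht0)).neg).hasDerivWithinAt (s := Ioi t)
      refine h4.congr_deriv ?_
      ring
    have hcg : ContinuousOn (fun t => - (l / (l + t) * h t)) (Icc 0 T) := by
      refine ContinuousOn.neg (ContinuousOn.mul ?_ (hc.mono fun t ht => ht.1))
      refine ContinuousOn.div continuousOn_const (by fun_prop) fun t ht => ?_
      have := ht.1
      positivity
    have hint : IntegrableOn (fun t => K * E t) (Icc 0 T) := by
      rw [integrableOn_Icc_iff_integrableOn_Ioc]
      exact (hE.mono_set Ioc_subset_Ioi_self).const_mul K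
    have h5 := intervalIntegral.sub_le_integral_of_hasDeriv_right_of_le hT.le hcg hg hint
      (fun t ht => hd2 t ht.1)
    have h6 : l / (l + 0) = 1 := by
      rw [add_zero, div_self hl.ne']
    have h7 : ∫ y in (0:ℝ)..T, K * E y ≤ K * ∫ t in Ioi (0:ℝ), E t := by
      rw [intervalIntegral.integral_const_mul, intervalIntegral.integral_of_le hT.le]
      refine mul_le_mul_of_nonneg_left ?_ hK.le
      refine setIntegral_mono_set hE ?_ (Ioc_subset_Ioi_self.eventuallyLE)
      exact (ae_restrict_iff' measurableSet_Ioi).2 (Eventually.of_forall fun t ht => hE0 t ht)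
    simp only [h6, one_mul] at h5
    linarith
  refine le_of_forall_pos_le_add fun ε hε => ?_
  obtain ⟨T, hT, h1⟩ := exists_small l hl E hE (ε / l) (by positivity) 1 one_pos
  have hT0 : 0 < T := by linarith
  have h2 := key T hT0
  have h3 : l / (l + T) * h T ≤ ε := by
    calc l / (l + T) * h T ≤ l / (l + T) * ((l + T) ^ 2 * E T) :=
          mul_le_mul_of_nonneg_left (hh T hT0) (by positivity)
      _ = l * (l + T) * E T := by
          field_simp
      _ ≤ l * (l + T) * (ε / l / (l + T)) := mul_le_mul_of_nonneg_left h1.le (by positivity)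
      _ = ε := by
          field_simp
  linarith

end Pool.Agent.H74.CV
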