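import Pool.Agent.H74.CV.Pol

set_option autoImplicit false

/-!
# [H74 CV TrcY] the angular part: `Ww` on the parallel curve, the energy in polar form (helper84, for Trc)
-/

namespace Pool.Agent.H74.CV.TrcY

open MeasureTheory Set Filter Topology Pool.Agent.H74.SX Pool.Agent.H74.CV.Pol

variable {p : ℝ → ℝ}

theorem rr_cont (hp : Sp p) : Continuous (rr p) := by
  have h1 : Continuous p := hp.c2.continuous
  have h2 : Continuous (deriv (deriv p)) := (dp_c1 hp).continuous_deriv le_rfl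
  exact h1.add h2

theorem per_deriv {f : ℝ → ℝ} {T : ℝ} (hf : Function.Periodic f T) : Function.Periodic (deriv f) T := by
  intro x
  have h1 : (fun y => f (y + T)) = f := funext hf
  calc deriv f (x + T) = deriv (fun y => f (y + T)) x := by rw [deriv_comp_add_const]
    _ = deriv f x := by rw [h1]

theorem rr_per (hp : Sp p) : Function.Periodic (rr p) (2 * Real.pi) := by
  intro x
  unfold rr
  rw [hp.per x, per_deriv (per_deriv hp.per) x]

theorem int_rr (hp : Sp p) : ∫ θ in (0 : ℝ)..(2 * Real.pi), rr p θ = Lp p := by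
  have h1 : Continuous p := hp.c2.continuous
  have h2 : Continuous (deriv (deriv p)) := (dp_c1 hp).continuous_deriv le_rfl
  have h3 : ∫ θ in (0 : ℝ)..(2 * Real.pi), deriv (deriv p) θ = 0 := by
    rw [intervalIntegral.integral_deriv_eq_sub' (deriv p) rfl
      (fun x _ => (dp_c1 hp).differentiable (by norm_num) x) h2.continuousOn]
    have h4 := per_deriv hp.per 0
    rw [zero_add] at h4
    rw [h4, sub_self]
  unfold rr Lp
  rw [intervalIntegral.integral_add (h1.intervalIntegrable _ _) (h2.intervalIntegrable _ _), h3, add_zero]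

theorem ga_per (hp : Sp p) : Function.Periodic (ga p) (2 * Real.pi) := by
  intro x
  have h1 : ee (x + 2 * Real.pi) = ee x := by
    unfold ee
    have h2 : ((x + 2 * Real.pi : ℝ) : ℂ) * Complex.I = x * Complex.I + 2 * Real.pi * Complex.I := by
      push_cast
      ring
    rw [h2, Complex.exp_periodic]
  unfold ga
  rw [h1, hp.per x, per_deriv hp.per x]

theorem ee_per (x : ℝ) : ee (x + 2 * Real.pi) = ee x := by
  unfold ee
  have h2 : ((x + 2 * Real.pi : ℝ) : ℂ) * Complex.I = x * Complex.I + 2 * Real.pi * Complex.I := by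
    push_cast
    ring
  rw [h2, Complex.exp_periodic]

theorem Ph_th (hp : Sp p) (t θ : ℝ) : HasDerivAt (fun θ => Ph p t θ) (((rr p θ + t : ℝ) : ℂ) * (Complex.I * ee θ)) θ := by
  have h1 := (ga_der hp θ).add ((ee_der θ).const_mul (t : ℂ))
  refine h1.congr_deriv ?_
  push_cast
  ring

theorem ee_cd : ContDiff ℝ 1 ee := by
  unfold ee
  exact ((Complex.ofRealCLM.contDiff (n := 1)).mul contDiff_const).cexp

theorem Ph_cd (hp : Sp p) (t : ℝ) : ContDiff ℝ 1 (fun θ => Ph p t θ) := by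
  have h1 : ContDiff ℝ 1 p := hp.c2.of_le (by norm_num)
  have h2 := dp_c1 hp
  have h3 : ContDiff ℝ 1 fun θ => ((p θ : ℝ) : ℂ) := Complex.ofRealCLM.contDiff.comp h1
  have h4 : ContDiff ℝ 1 fun θ => ((deriv p θ : ℝ) : ℂ) := Complex.ofRealCLM.contDiff.comp h2
  exact ((h3.add (h4.mul contDiff_const)).mul ee_cd).add (contDiff_const.mul ee_cd)

theorem U_th (hp : Sp p) {u : ℂ → ℝ} (hu : ContDiff ℝ 1 u) (t θ : ℝ) :
    HasDerivAt (fun θ => u (Ph p t θ)) ((rr p θ + t) * fderiv ℝ u (Ph p t θ) (Complex.I * ee θ)) θ := by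
  have h1 := ((hu.differentiable (by norm_num)) (Ph p t θ)).hasFDerivAt.comp_hasDerivAt θ (Ph_th hp t θ)
  refine h1.congr_deriv ?_
  have e : ((rr p θ + t : ℝ) : ℂ) * (Complex.I * ee θ) = (rr p θ + t) • (Complex.I * ee θ) := by
    rw [Complex.real_smul]
  rw [e, map_smul, smul_eq_mul]

theorem norm_sq (L : ℂ →L[ℝ] ℝ) : ‖L‖ ^ 2 = (L 1) ^ 2 + (L Complex.I) ^ 2 := by
  obtain ⟨N, hN⟩ : ∃ N, N = (L 1) ^ 2 + (L Complex.I) ^ 2 := ⟨_, rfl⟩
  have hN0 : 0 ≤ N := by rw [hN]; positivity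
  have hz : ∀ z : ℂ, L z = z.re * L 1 + z.im * L Complex.I := by
    intro z
    have e : z = z.re • (1 : ℂ) + z.im • Complex.I := by
      rw [Complex.real_smul, Complex.real_smul, mul_one]
      exact (Complex.re_add_im z).symm
    conv_lhs => rw [e]
    rw [map_add, map_smul, map_smul, smul_eq_mul, smul_eq_mul]
  apply le_antisymm
  · have h1 : ‖L‖ ≤ Real.sqrt N := by
      refine L.opNorm_le_bound (Real.sqrt_nonneg _) fun z => ?_
      rw [hz, Real.norm_eq_abs, ← Real.sqrt_sq_eq_abs]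
      have h2 : ‖z‖ = Real.sqrt (z.re ^ 2 + z.im ^ 2) := by
        rw [Complex.norm_eq_sqrt_sq_add_sq]
      rw [h2, ← Real.sqrt_mul hN0]
      refine Real.sqrt_le_sqrt ?_
      rw [hN]
      nlinarith [sq_nonneg (z.re * L Complex.I - z.im * L 1)]
    have h3 := pow_le_pow_left₀ (norm_nonneg _) h1 2
    rw [Real.sq_sqrt hN0, hN] at h3
    exact h3
  · rcases eq_or_lt_of_le hN0 with h | h
    · rw [← hN, ← h]
      positivity
    · have h1 := L.le_opNorm ((L 1 : ℂ) + (L Complex.I : ℂ) * Complex.I)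
      have h2 : L ((L 1 : ℂ) + (L Complex.I : ℂ) * Complex.I) = N := by
        rw [hz, hN]
        simp
        ring
      have h3 : ‖((L 1 : ℂ) + (L Complex.I : ℂ) * Complex.I)‖ = Real.sqrt N := by
        rw [Complex.norm_eq_sqrt_sq_add_sq, hN]
        simp
      rw [h2, h3, Real.norm_of_nonneg hN0] at h1
      have h4 : Real.sqrt N * Real.sqrt N ≤ ‖L‖ * Real.sqrt N := by
        rw [Real.mul_self_sqrt hN0]
        exact h1
      have h5 : Real.sqrt N ≤ ‖L‖ := le_of_mul_le_mul_right h4 (Real.sqrt_pos.2 h)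
      have h6 := pow_le_pow_left₀ (Real.sqrt_nonneg _) h5 2
      rw [Real.sq_sqrt hN0, hN] at h6
      exact h6

theorem norm_rot (L : ℂ →L[ℝ] ℝ) (θ : ℝ) : ‖L‖ ^ 2 = (L (ee θ)) ^ 2 + (L (Complex.I * ee θ)) ^ 2 := by
  rw [norm_sq]
  have e1 : ee θ = Real.cos θ • (1 : ℂ) + Real.sin θ • Complex.I := by
    unfold ee
    rw [Complex.exp_mul_I, Complex.real_smul, Complex.real_smul, mul_one]
    push_cast
    rfl
  have e2 : Complex.I * ee θ = (-Real.sin θ) • (1 : ℂ) + Real.cos θ • Complex.I := by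
    rw [e1, Complex.real_smul, Complex.real_smul, Complex.real_smul, Complex.real_smul]
    push_cast
    linear_combination (Complex.sin θ) * Complex.I_sq
  rw [e2, e1]
  simp only [map_add, map_smul, smul_eq_mul]
  have := Real.sin_sq_add_cos_sq θ
  linear_combination (-(L 1) ^ 2 - (L Complex.I) ^ 2) * this

theorem lam (hp : Sp p) (t : ℝ) : (∫ θ in (0 : ℝ)..(2 * Real.pi), (rr p θ + t)) = Lp p + 2 * Real.pi * t := by
  rw [intervalIntegral.integral_add ((rr_cont hp).intervalIntegrable _ _) intervalIntegrable_const, int_rr hp,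
    intervalIntegral.integral_const, sub_zero, smul_eq_mul]

/-- `Ww` on the parallel curve at distance `t` -/
theorem ang (hw : WwStmt) (hp : Sp p) {u : ℂ → ℝ} (hu : ContDiff ℝ 1 u) {t : ℝ} (ht : 0 < t) :
    ∫ θ in (0 : ℝ)..(2 * Real.pi), (u (Ph p t θ) -
        (∫ θ in (0 : ℝ)..(2 * Real.pi), u (Ph p t θ) * (rr p θ + t)) / (Lp p + 2 * Real.pi * t)) ^ 2 * (rr p θ + t) ≤
      (Lp p / (2 * Real.pi) + t) ^ 2 *
        ∫ θ in (0 : ℝ)..(2 * Real.pi), (rr p θ + t) * (fderiv ℝ u (Ph p t θ) (Complex.I * ee θ)) ^ 2 := by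
  have hpi := Real.pi_pos
  have hω : ∀ θ, 0 < rr p θ + t := fun θ => by
    have := hp.nn θ
    unfold rr
    linarith
  have h1 := hw (fun θ => rr p θ + t) (fun θ => u (Ph p t θ)) ((rr_cont hp).add continuous_const) hω
    (fun θ => by
      show rr p (θ + 2 * Real.pi) + t = rr p θ + t
      rw [rr_per hp θ])
    (hu.comp (Ph_cd hp t))
    (fun θ => by
      show u (Ph p t (θ + 2 * Real.pi)) = u (Ph p t θ)
      unfold Ph
      rw [ga_per hp θ, ee_per θ])
    (Lp p / (2 * Real.pi) + t) ((∫ θ in (0 : ℝ)..(2 * Real.pi), u (Ph p t θ) * (rr p θ + t)) / (Lp p + 2 * Real.pi * t))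
    (by
      rw [lam hp]
      field_simp)
    (by rw [lam hp])
  refine h1.trans (le_of_eq ?_)
  congr 1
  refine intervalIntegral.integral_congr fun θ _ => ?_
  show deriv (fun θ => u (Ph p t θ)) θ ^ 2 / (rr p θ + t) = _
  rw [(U_th hp hu t θ).deriv]
  have := (hω θ).ne'
  field_simp

/-- the energy on the parallel curve -/
theorem en (hp : Sp p) {u : ℂ → ℝ} (hu : ContDiff ℝ 1 u) (t : ℝ) :
    EE p u t = (∫ θ in (0 : ℝ)..(2 * Real.pi), (rr p θ + t) * (fderiv ℝ u (Ph p t θ) (ee θ)) ^ 2) +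
      ∫ θ in (0 : ℝ)..(2 * Real.pi), (rr p θ + t) * (fderiv ℝ u (Ph p t θ) (Complex.I * ee θ)) ^ 2 := by
  have hω : Continuous fun θ => rr p θ + t := (rr_cont hp).add continuous_const
  have hf : Continuous fun θ => fderiv ℝ u (Ph p t θ) :=
    (hu.continuous_fderiv (by norm_num)).comp (Ph_cd hp t).continuous
  have he : Continuous ee := ee_cd.continuous
  have c1 : Continuous fun θ => fderiv ℝ u (Ph p t θ) (ee θ) := hf.clm_apply he
  have c2 : Continuous fun θ => fderiv ℝ u (Ph p t θ) (Complex.I * ee θ) := hf.clm_apply (continuous_const.mul he)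
  have i1 : IntervalIntegrable (fun θ => (rr p θ + t) * (fderiv ℝ u (Ph p t θ) (ee θ)) ^ 2) volume 0 (2 * Real.pi) :=
    (hω.mul (c1.pow 2)).intervalIntegrable _ _
  have i2 : IntervalIntegrable (fun θ => (rr p θ + t) * (fderiv ℝ u (Ph p t θ) (Complex.I * ee θ)) ^ 2)
      volume 0 (2 * Real.pi) := (hω.mul (c2.pow 2)).intervalIntegrable _ _
  rw [← intervalIntegral.integral_add i1 i2]
  unfold EE
  refine intervalIntegral.integral_congr fun θ _ => ?_
  show (rr p θ + t) * ‖fderiv ℝ u (Ph p t θ)‖ ^ 2 = _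
  rw [norm_rot _ θ]
  ring

end Pool.Agent.H74.CV.TrcY
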